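import Pool.Agent.Gen.TY.T.Cls
import Pool.Agent.Gen.TY.T.CovA
import Pool.Agent.Gen.TY.T.CovB
import Pool.Agent.Gen.TY.T.T_00
import Pool.Agent.Gen.TY.T.T_01
import Pool.Agent.Gen.TY.T.T_02
import Pool.Agent.Gen.TY.T.T_03
import Pool.Agent.Gen.TY.T.T_04
import Pool.Agent.Gen.TY.T.T_05
import Pool.Agent.Gen.TY.T.T_06
import Pool.Agent.Gen.TY.T.T_07
import Pool.Agent.Gen.TY.T.T_08
import Pool.Agent.Gen.TY.T.T_09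
import Pool.Agent.Gen.TY.T.T_10
import Pool.Agent.Gen.TY.T.T_11
import Pool.Agent.Gen.TY.T.T_12

/-!
MP_8ee768_co, project TH-Y', stage T: `stageT`, no odd cover with the type T.
-/

set_option autoImplicit false
set_option maxRecDepth 100000
set_option exponentiation.threshold 600

namespace Pool.Agent.Gen.TY.T

open Pool.Agent.Helper97.CV Pool.Agent.Helper79.CV Pool.Agent.Helper33.CV Pool.Agent.Helper33.TY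
open Pool.Agent.Helper30.TY
open Pool.Agent.Helper67.TY (repA repB autA autB)
open Pool.Agent.Gen.TY.FT (recsF lA lB tabA_F tabB_F)

theorem lenBA : BA.length ≤ 199 := by decide +kernel

theorem lenBB : BB.length ≤ 105 := by decide +kernel

theorem lenF : repsF.length = 466 := by decide +kernel

/-- every frame over `repA` is dead against every chunk -/
theorem dA : ∀ c ∈ chA, ∀ l ∈ BA, ∀ f ∈ l, FDead [c] f :=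
  List.forall_mem_cons.2 ⟨Sg.all rA_0 lenBA,
  List.forall_mem_cons.2 ⟨Sg.all rA_1 lenBA,
  List.forall_mem_cons.2 ⟨Sg.all rA_2 lenBA,
  List.forall_mem_cons.2 ⟨Sg.all rA_3 lenBA,
  List.forall_mem_cons.2 ⟨Sg.all rA_4 lenBA,
  List.forall_mem_cons.2 ⟨Sg.all rA_5 lenBA,
  List.forall_mem_cons.2 ⟨Sg.all rA_6 lenBA,
  List.forall_mem_cons.2 ⟨Sg.all rA_7 lenBA,
  List.forall_mem_cons.2 ⟨Sg.all rA_8 lenBA,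
  List.forall_mem_cons.2 ⟨Sg.all rA_9 lenBA,
  List.forall_mem_cons.2 ⟨Sg.all rA_10 lenBA,
  List.forall_mem_cons.2 ⟨Sg.all rA_11 lenBA,
  List.forall_mem_cons.2 ⟨Sg.all rA_12 lenBA,
  List.forall_mem_cons.2 ⟨Sg.all rA_13 lenBA,
  List.forall_mem_cons.2 ⟨Sg.all rA_14 lenBA,
  List.forall_mem_cons.2 ⟨Sg.all rA_15 lenBA,
  List.forall_mem_cons.2 ⟨Sg.all rA_16 lenBA,
  List.forall_mem_cons.2 ⟨Sg.all rA_17 lenBA,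
  List.forall_mem_cons.2 ⟨Sg.all rA_18 lenBA,
  List.forall_mem_cons.2 ⟨Sg.all rA_19 lenBA,
  List.forall_mem_cons.2 ⟨Sg.all rA_20 lenBA,
  List.forall_mem_cons.2 ⟨Sg.all rA_21 lenBA,
  List.forall_mem_cons.2 ⟨Sg.all rA_22 lenBA,
  List.forall_mem_cons.2 ⟨Sg.all rA_23 lenBA,
  List.forall_mem_cons.2 ⟨Sg.all rA_24 lenBA,
  List.forall_mem_cons.2 ⟨Sg.all rA_25 lenBA,
  List.forall_mem_cons.2 ⟨Sg.all rA_26 lenBA,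
  List.forall_mem_cons.2 ⟨Sg.all rA_27 lenBA,
  List.forall_mem_cons.2 ⟨Sg.all rA_28 lenBA,
  List.forall_mem_cons.2 ⟨Sg.all rA_29 lenBA,
  List.forall_mem_cons.2 ⟨Sg.all rA_30 lenBA,
  List.forall_mem_cons.2 ⟨Sg.all rA_31 lenBA,
  List.forall_mem_cons.2 ⟨Sg.all rA_32 lenBA,
  List.forall_mem_cons.2 ⟨Sg.all rA_33 lenBA,
  List.forall_mem_cons.2 ⟨Sg.all rA_34 lenBA,
  List.forall_mem_cons.2 ⟨Sg.all rA_35 lenBA,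
  List.forall_mem_cons.2 ⟨Sg.all rA_36 lenBA,
  List.forall_mem_cons.2 ⟨Sg.all rA_37 lenBA,
  List.forall_mem_cons.2 ⟨Sg.all rA_38 lenBA,
  List.forall_mem_cons.2 ⟨Sg.all rA_39 lenBA,
  List.forall_mem_cons.2 ⟨Sg.all rA_40 lenBA,
  List.forall_mem_cons.2 ⟨Sg.all rA_41 lenBA,
  List.forall_mem_cons.2 ⟨Sg.all rA_42 lenBA,
  List.forall_mem_cons.2 ⟨Sg.all rA_43 lenBA,
  List.forall_mem_cons.2 ⟨Sg.all rA_44 lenBA,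
  List.forall_mem_cons.2 ⟨Sg.all rA_45 lenBA,
  List.forall_mem_cons.2 ⟨Sg.all rA_46 lenBA,
  List.forall_mem_cons.2 ⟨Sg.all rA_47 lenBA,
  List.forall_mem_cons.2 ⟨Sg.all rA_48 lenBA,
  List.forall_mem_cons.2 ⟨Sg.all rA_49 lenBA,
  List.forall_mem_cons.2 ⟨Sg.all rA_50 lenBA,
  List.forall_mem_cons.2 ⟨Sg.all rA_51 lenBA,
  List.forall_mem_cons.2 ⟨Sg.all rA_52 lenBA,
  List.forall_mem_cons.2 ⟨Sg.all rA_53 lenBA,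
  List.forall_mem_cons.2 ⟨Sg.all rA_54 lenBA,
  List.forall_mem_cons.2 ⟨Sg.all rA_55 lenBA,
  List.forall_mem_cons.2 ⟨Sg.all rA_56 lenBA,
  List.forall_mem_cons.2 ⟨Sg.all rA_57 lenBA,
  List.forall_mem_cons.2 ⟨Sg.all rA_58 lenBA,
  List.forall_mem_cons.2 ⟨Sg.all rA_59 lenBA,
  List.forall_mem_cons.2 ⟨Sg.all rA_60 lenBA,
  List.forall_mem_cons.2 ⟨Sg.all rA_61 lenBA,
  List.forall_mem_cons.2 ⟨Sg.all rA_62 lenBA,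
  List.forall_mem_cons.2 ⟨Sg.all rA_63 lenBA,
  List.forall_mem_cons.2 ⟨Sg.all rA_64 lenBA,
  List.forall_mem_cons.2 ⟨Sg.all rA_65 lenBA,
  List.forall_mem_cons.2 ⟨Sg.all rA_66 lenBA,
  List.forall_mem_cons.2 ⟨Sg.all rA_67 lenBA,
  List.forall_mem_cons.2 ⟨Sg.all rA_68 lenBA,
  List.forall_mem_cons.2 ⟨Sg.all rA_69 lenBA,
  List.forall_mem_cons.2 ⟨Sg.all rA_70 lenBA,
  List.forall_mem_cons.2 ⟨Sg.all rA_71 lenBA,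
  List.forall_mem_cons.2 ⟨Sg.all rA_72 lenBA,
  List.forall_mem_cons.2 ⟨Sg.all rA_73 lenBA,
  List.forall_mem_cons.2 ⟨Sg.all rA_74 lenBA,
  List.forall_mem_cons.2 ⟨Sg.all rA_75 lenBA,
  List.forall_mem_cons.2 ⟨Sg.all rA_76 lenBA,
  List.forall_mem_cons.2 ⟨Sg.all rA_77 lenBA,
  List.forall_mem_cons.2 ⟨Sg.all rA_78 lenBA,
  List.forall_mem_cons.2 ⟨Sg.all rA_79 lenBA,
  List.forall_mem_cons.2 ⟨Sg.all rA_80 lenBA,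
  List.forall_mem_cons.2 ⟨Sg.all rA_81 lenBA,
  List.forall_mem_cons.2 ⟨Sg.all rA_82 lenBA,
  List.forall_mem_cons.2 ⟨Sg.all rA_83 lenBA,
  List.forall_mem_cons.2 ⟨Sg.all rA_84 lenBA,
  List.forall_mem_cons.2 ⟨Sg.all rA_85 lenBA,
  List.forall_mem_cons.2 ⟨Sg.all rA_86 lenBA,
  List.forall_mem_cons.2 ⟨Sg.all rA_87 lenBA,
  List.forall_mem_cons.2 ⟨Sg.all rA_88 lenBA,
  List.forall_mem_cons.2 ⟨Sg.all rA_89 lenBA,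
  List.forall_mem_cons.2 ⟨Sg.all rA_90 lenBA,
  List.forall_mem_cons.2 ⟨Sg.all rA_91 lenBA,
  List.forall_mem_nil _⟩⟩⟩⟩⟩⟩⟩⟩⟩⟩⟩⟩⟩⟩⟩⟩⟩⟩⟩⟩⟩⟩⟩⟩⟩⟩⟩⟩⟩⟩⟩⟩⟩⟩⟩⟩⟩⟩⟩⟩⟩⟩⟩⟩⟩⟩⟩⟩⟩⟩⟩⟩⟩⟩⟩⟩⟩⟩⟩⟩⟩⟩⟩⟩⟩⟩⟩⟩⟩⟩⟩⟩⟩⟩⟩⟩⟩⟩⟩⟩⟩⟩⟩⟩⟩⟩⟩⟩⟩⟩⟩⟩

/-- every frame over `repB` is dead against every chunk -/
theorem dB : ∀ c ∈ chB, ∀ l ∈ BB, ∀ f ∈ l, FDead [c] f :=
  List.forall_mem_cons.2 ⟨Sg.all rB_0 lenBB,
  List.forall_mem_cons.2 ⟨Sg.all rB_1 lenBB,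
  List.forall_mem_cons.2 ⟨Sg.all rB_2 lenBB,
  List.forall_mem_cons.2 ⟨Sg.all rB_3 lenBB,
  List.forall_mem_cons.2 ⟨Sg.all rB_4 lenBB,
  List.forall_mem_cons.2 ⟨Sg.all rB_5 lenBB,
  List.forall_mem_cons.2 ⟨Sg.all rB_6 lenBB,
  List.forall_mem_cons.2 ⟨Sg.all rB_7 lenBB,
  List.forall_mem_cons.2 ⟨Sg.all rB_8 lenBB,
  List.forall_mem_cons.2 ⟨Sg.all rB_9 lenBB,
  List.forall_mem_cons.2 ⟨Sg.all rB_10 lenBB,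
  List.forall_mem_cons.2 ⟨Sg.all rB_11 lenBB,
  List.forall_mem_cons.2 ⟨Sg.all rB_12 lenBB,
  List.forall_mem_cons.2 ⟨Sg.all rB_13 lenBB,
  List.forall_mem_cons.2 ⟨Sg.all rB_14 lenBB,
  List.forall_mem_cons.2 ⟨Sg.all rB_15 lenBB,
  List.forall_mem_cons.2 ⟨Sg.all rB_16 lenBB,
  List.forall_mem_cons.2 ⟨Sg.all rB_17 lenBB,
  List.forall_mem_cons.2 ⟨Sg.all rB_18 lenBB,
  List.forall_mem_cons.2 ⟨Sg.all rB_19 lenBB,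
  List.forall_mem_cons.2 ⟨Sg.all rB_20 lenBB,
  List.forall_mem_cons.2 ⟨Sg.all rB_21 lenBB,
  List.forall_mem_cons.2 ⟨Sg.all rB_22 lenBB,
  List.forall_mem_cons.2 ⟨Sg.all rB_23 lenBB,
  List.forall_mem_cons.2 ⟨Sg.all rB_24 lenBB,
  List.forall_mem_cons.2 ⟨Sg.all rB_25 lenBB,
  List.forall_mem_cons.2 ⟨Sg.all rB_26 lenBB,
  List.forall_mem_cons.2 ⟨Sg.all rB_27 lenBB,
  List.forall_mem_cons.2 ⟨Sg.all rB_28 lenBB,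
  List.forall_mem_cons.2 ⟨Sg.all rB_29 lenBB,
  List.forall_mem_cons.2 ⟨Sg.all rB_30 lenBB,
  List.forall_mem_cons.2 ⟨Sg.all rB_31 lenBB,
  List.forall_mem_cons.2 ⟨Sg.all rB_32 lenBB,
  List.forall_mem_cons.2 ⟨Sg.all rB_33 lenBB,
  List.forall_mem_cons.2 ⟨Sg.all rB_34 lenBB,
  List.forall_mem_cons.2 ⟨Sg.all rB_35 lenBB,
  List.forall_mem_cons.2 ⟨Sg.all rB_36 lenBB,
  List.forall_mem_cons.2 ⟨Sg.all rB_37 lenBB,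
  List.forall_mem_cons.2 ⟨Sg.all rB_38 lenBB,
  List.forall_mem_cons.2 ⟨Sg.all rB_39 lenBB,
  List.forall_mem_cons.2 ⟨Sg.all rB_40 lenBB,
  List.forall_mem_cons.2 ⟨Sg.all rB_41 lenBB,
  List.forall_mem_cons.2 ⟨Sg.all rB_42 lenBB,
  List.forall_mem_cons.2 ⟨Sg.all rB_43 lenBB,
  List.forall_mem_cons.2 ⟨Sg.all rB_44 lenBB,
  List.forall_mem_cons.2 ⟨Sg.all rB_45 lenBB,
  List.forall_mem_cons.2 ⟨Sg.all rB_46 lenBB,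
  List.forall_mem_cons.2 ⟨Sg.all rB_47 lenBB,
  List.forall_mem_cons.2 ⟨Sg.all rB_48 lenBB,
  List.forall_mem_cons.2 ⟨Sg.all rB_49 lenBB,
  List.forall_mem_cons.2 ⟨Sg.all rB_50 lenBB,
  List.forall_mem_cons.2 ⟨Sg.all rB_51 lenBB,
  List.forall_mem_cons.2 ⟨Sg.all rB_52 lenBB,
  List.forall_mem_cons.2 ⟨Sg.all rB_53 lenBB,
  List.forall_mem_cons.2 ⟨Sg.all rB_54 lenBB,
  List.forall_mem_cons.2 ⟨Sg.all rB_55 lenBB,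
  List.forall_mem_cons.2 ⟨Sg.all rB_56 lenBB,
  List.forall_mem_cons.2 ⟨Sg.all rB_57 lenBB,
  List.forall_mem_cons.2 ⟨Sg.all rB_58 lenBB,
  List.forall_mem_cons.2 ⟨Sg.all rB_59 lenBB,
  List.forall_mem_cons.2 ⟨Sg.all rB_60 lenBB,
  List.forall_mem_cons.2 ⟨Sg.all rB_61 lenBB,
  List.forall_mem_cons.2 ⟨Sg.all rB_62 lenBB,
  List.forall_mem_cons.2 ⟨Sg.all rB_63 lenBB,
  List.forall_mem_cons.2 ⟨Sg.all rB_64 lenBB,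
  List.forall_mem_cons.2 ⟨Sg.all rB_65 lenBB,
  List.forall_mem_cons.2 ⟨Sg.all rB_66 lenBB,
  List.forall_mem_cons.2 ⟨Sg.all rB_67 lenBB,
  List.forall_mem_cons.2 ⟨Sg.all rB_68 lenBB,
  List.forall_mem_cons.2 ⟨Sg.all rB_69 lenBB,
  List.forall_mem_cons.2 ⟨Sg.all rB_70 lenBB,
  List.forall_mem_cons.2 ⟨Sg.all rB_71 lenBB,
  List.forall_mem_cons.2 ⟨Sg.all rB_72 lenBB,
  List.forall_mem_cons.2 ⟨Sg.all rB_73 lenBB,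
  List.forall_mem_cons.2 ⟨Sg.all rB_74 lenBB,
  List.forall_mem_cons.2 ⟨Sg.all rB_75 lenBB,
  List.forall_mem_cons.2 ⟨Sg.all rB_76 lenBB,
  List.forall_mem_cons.2 ⟨Sg.all rB_77 lenBB,
  List.forall_mem_cons.2 ⟨Sg.all rB_78 lenBB,
  List.forall_mem_cons.2 ⟨Sg.all rB_79 lenBB,
  List.forall_mem_cons.2 ⟨Sg.all rB_80 lenBB,
  List.forall_mem_cons.2 ⟨Sg.all rB_81 lenBB,
  List.forall_mem_cons.2 ⟨Sg.all rB_82 lenBB,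
  List.forall_mem_cons.2 ⟨Sg.all rB_83 lenBB,
  List.forall_mem_cons.2 ⟨Sg.all rB_84 lenBB,
  List.forall_mem_cons.2 ⟨Sg.all rB_85 lenBB,
  List.forall_mem_cons.2 ⟨Sg.all rB_86 lenBB,
  List.forall_mem_cons.2 ⟨Sg.all rB_87 lenBB,
  List.forall_mem_cons.2 ⟨Sg.all rB_88 lenBB,
  List.forall_mem_cons.2 ⟨Sg.all rB_89 lenBB,
  List.forall_mem_cons.2 ⟨Sg.all rB_90 lenBB,
  List.forall_mem_cons.2 ⟨Sg.all rB_91 lenBB,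
  List.forall_mem_nil _⟩⟩⟩⟩⟩⟩⟩⟩⟩⟩⟩⟩⟩⟩⟩⟩⟩⟩⟩⟩⟩⟩⟩⟩⟩⟩⟩⟩⟩⟩⟩⟩⟩⟩⟩⟩⟩⟩⟩⟩⟩⟩⟩⟩⟩⟩⟩⟩⟩⟩⟩⟩⟩⟩⟩⟩⟩⟩⟩⟩⟩⟩⟩⟩⟩⟩⟩⟩⟩⟩⟩⟩⟩⟩⟩⟩⟩⟩⟩⟩⟩⟩⟩⟩⟩⟩⟩⟩⟩⟩⟩⟩

theorem done : DoneC chA chB 212 466 :=
  (DoneC.app (doneC_mk (fdead_all dA) (fdead_all dB) (by norm_num) c495_eq dc_212 : DoneC chA chB 212 244)
 (DoneC.app (doneC_mk (fdead_all dA) (fdead_all dB) (by norm_num) c495_eq dc_244 : DoneC chA chB 244 276)
 (DoneC.app (doneC_mk (fdead_all dA) (fdead_all dB) (by norm_num) c495_eq dc_276 : DoneC chA chB 276 308)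
 (DoneC.app (doneC_mk (fdead_all dA) (fdead_all dB) (by norm_num) c495_eq dc_308 : DoneC chA chB 308 340)
 (DoneC.app (doneC_mk (fdead_all dA) (fdead_all dB) (by norm_num) c495_eq dc_340 : DoneC chA chB 340 372)
 (DoneC.app (doneC_mk (fdead_all dA) (fdead_all dB) (by norm_num) c495_eq dc_372 : DoneC chA chB 372 404)
 (DoneC.app (doneC_mk (fdead_all dA) (fdead_all dB) (by norm_num) c495_eq dc_404 : DoneC chA chB 404 436)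
 (doneC_mk (fdead_all dA) (fdead_all dB) (by norm_num) c495_eq dc_436 : DoneC chA chB 436 466))))))))

/-- **stage T** -/
theorem stageT (hC : ClsOK 4 repsF) (j : ℕ) (B : Pool.Agent.Helper79.CV.Fam) (x z : Fin 13)
    (h : QT repsF j B x z) : False :=
  stageT_of done lenF (tabA_F hC) (tabB_F hC) covA covB wsA_val wsB_val (by decide) (by decide)
    j B x z h

end Pool.Agent.Gen.TY.T
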