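import Pool.Agent.Gen.TY.T.EntA

/-!
MP_8ee768_co, project TH-Y', stage T: the chunks over `repA` are correct.
-/

set_option autoImplicit false
set_option maxRecDepth 100000
set_option exponentiation.threshold 600

namespace Pool.Agent.Gen.TY.T

open Pool.Agent.Helper30.TY Pool.Agent.Helper33.TY
open Pool.Agent.Helper79.CV Pool.Agent.Helper33.CV
open Pool.Agent.Helper67.TY (repA repB autA autB)

theorem kA_0 : chChk c506 t8A dtA cA_0 = true := by decide +kernel
theorem kA_1 : chChk c506 t8A dtA cA_1 = true := by decide +kernel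
theorem kA_2 : chChk c506 t8A dtA cA_2 = true := by decide +kernel
theorem kA_3 : chChk c506 t8A dtA cA_3 = true := by decide +kernel
theorem kA_4 : chChk c506 t8A dtA cA_4 = true := by decide +kernel
theorem kA_5 : chChk c506 t8A dtA cA_5 = true := by decide +kernel
theorem kA_6 : chChk c506 t8A dtA cA_6 = true := by decide +kernel
theorem kA_7 : chChk c506 t8A dtA cA_7 = true := by decide +kernel
theorem kA_8 : chChk c506 t8A dtA cA_8 = true := by decide +kernel
theorem kA_9 : chChk c506 t8A dtA cA_9 = true := by decide +kernel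
theorem kA_10 : chChk c506 t8A dtA cA_10 = true := by decide +kernel
theorem kA_11 : chChk c506 t8A dtA cA_11 = true := by decide +kernel
theorem kA_12 : chChk c506 t8A dtA cA_12 = true := by decide +kernel
theorem kA_13 : chChk c506 t8A dtA cA_13 = true := by decide +kernel
theorem kA_14 : chChk c506 t8A dtA cA_14 = true := by decide +kernel
theorem kA_15 : chChk c506 t8A dtA cA_15 = true := by decide +kernel
theorem kA_16 : chChk c506 t8A dtA cA_16 = true := by decide +kernel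
theorem kA_17 : chChk c506 t8A dtA cA_17 = true := by decide +kernel
theorem kA_18 : chChk c506 t8A dtA cA_18 = true := by decide +kernel
theorem kA_19 : chChk c506 t8A dtA cA_19 = true := by decide +kernel
theorem kA_20 : chChk c506 t8A dtA cA_20 = true := by decide +kernel
theorem kA_21 : chChk c506 t8A dtA cA_21 = true := by decide +kernel
theorem kA_22 : chChk c506 t8A dtA cA_22 = true := by decide +kernel
theorem kA_23 : chChk c506 t8A dtA cA_23 = true := by decide +kernel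
theorem kA_24 : chChk c506 t8A dtA cA_24 = true := by decide +kernel
theorem kA_25 : chChk c506 t8A dtA cA_25 = true := by decide +kernel
theorem kA_26 : chChk c506 t8A dtA cA_26 = true := by decide +kernel
theorem kA_27 : chChk c506 t8A dtA cA_27 = true := by decide +kernel
theorem kA_28 : chChk c506 t8A dtA cA_28 = true := by decide +kernel
theorem kA_29 : chChk c506 t8A dtA cA_29 = true := by decide +kernel
theorem kA_30 : chChk c506 t8A dtA cA_30 = true := by decide +kernel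
theorem kA_31 : chChk c506 t8A dtA cA_31 = true := by decide +kernel
theorem kA_32 : chChk c506 t8A dtA cA_32 = true := by decide +kernel
theorem kA_33 : chChk c506 t8A dtA cA_33 = true := by decide +kernel
theorem kA_34 : chChk c506 t8A dtA cA_34 = true := by decide +kernel
theorem kA_35 : chChk c506 t8A dtA cA_35 = true := by decide +kernel
theorem kA_36 : chChk c506 t8A dtA cA_36 = true := by decide +kernel
theorem kA_37 : chChk c506 t8A dtA cA_37 = true := by decide +kernel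
theorem kA_38 : chChk c506 t8A dtA cA_38 = true := by decide +kernel
theorem kA_39 : chChk c506 t8A dtA cA_39 = true := by decide +kernel
theorem kA_40 : chChk c506 t8A dtA cA_40 = true := by decide +kernel
theorem kA_41 : chChk c506 t8A dtA cA_41 = true := by decide +kernel
theorem kA_42 : chChk c506 t8A dtA cA_42 = true := by decide +kernel
theorem kA_43 : chChk c506 t8A dtA cA_43 = true := by decide +kernel
theorem kA_44 : chChk c506 t8A dtA cA_44 = true := by decide +kernel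
theorem kA_45 : chChk c506 t8A dtA cA_45 = true := by decide +kernel
theorem kA_46 : chChk c506 t8A dtA cA_46 = true := by decide +kernel
theorem kA_47 : chChk c506 t8A dtA cA_47 = true := by decide +kernel
theorem kA_48 : chChk c506 t8A dtA cA_48 = true := by decide +kernel
theorem kA_49 : chChk c506 t8A dtA cA_49 = true := by decide +kernel
theorem kA_50 : chChk c506 t8A dtA cA_50 = true := by decide +kernel
theorem kA_51 : chChk c506 t8A dtA cA_51 = true := by decide +kernel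
theorem kA_52 : chChk c506 t8A dtA cA_52 = true := by decide +kernel
theorem kA_53 : chChk c506 t8A dtA cA_53 = true := by decide +kernel
theorem kA_54 : chChk c506 t8A dtA cA_54 = true := by decide +kernel
theorem kA_55 : chChk c506 t8A dtA cA_55 = true := by decide +kernel
theorem kA_56 : chChk c506 t8A dtA cA_56 = true := by decide +kernel
theorem kA_57 : chChk c506 t8A dtA cA_57 = true := by decide +kernel
theorem kA_58 : chChk c506 t8A dtA cA_58 = true := by decide +kernel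
theorem kA_59 : chChk c506 t8A dtA cA_59 = true := by decide +kernel
theorem kA_60 : chChk c506 t8A dtA cA_60 = true := by decide +kernel
theorem kA_61 : chChk c506 t8A dtA cA_61 = true := by decide +kernel
theorem kA_62 : chChk c506 t8A dtA cA_62 = true := by decide +kernel
theorem kA_63 : chChk c506 t8A dtA cA_63 = true := by decide +kernel
theorem kA_64 : chChk c506 t8A dtA cA_64 = true := by decide +kernel
theorem kA_65 : chChk c506 t8A dtA cA_65 = true := by decide +kernel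
theorem kA_66 : chChk c506 t8A dtA cA_66 = true := by decide +kernel
theorem kA_67 : chChk c506 t8A dtA cA_67 = true := by decide +kernel
theorem kA_68 : chChk c506 t8A dtA cA_68 = true := by decide +kernel
theorem kA_69 : chChk c506 t8A dtA cA_69 = true := by decide +kernel
theorem kA_70 : chChk c506 t8A dtA cA_70 = true := by decide +kernel
theorem kA_71 : chChk c506 t8A dtA cA_71 = true := by decide +kernel
theorem kA_72 : chChk c506 t8A dtA cA_72 = true := by decide +kernel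
theorem kA_73 : chChk c506 t8A dtA cA_73 = true := by decide +kernel
theorem kA_74 : chChk c506 t8A dtA cA_74 = true := by decide +kernel
theorem kA_75 : chChk c506 t8A dtA cA_75 = true := by decide +kernel
theorem kA_76 : chChk c506 t8A dtA cA_76 = true := by decide +kernel
theorem kA_77 : chChk c506 t8A dtA cA_77 = true := by decide +kernel
theorem kA_78 : chChk c506 t8A dtA cA_78 = true := by decide +kernel
theorem kA_79 : chChk c506 t8A dtA cA_79 = true := by decide +kernel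
theorem kA_80 : chChk c506 t8A dtA cA_80 = true := by decide +kernel
theorem kA_81 : chChk c506 t8A dtA cA_81 = true := by decide +kernel
theorem kA_82 : chChk c506 t8A dtA cA_82 = true := by decide +kernel
theorem kA_83 : chChk c506 t8A dtA cA_83 = true := by decide +kernel
theorem kA_84 : chChk c506 t8A dtA cA_84 = true := by decide +kernel
theorem kA_85 : chChk c506 t8A dtA cA_85 = true := by decide +kernel
theorem kA_86 : chChk c506 t8A dtA cA_86 = true := by decide +kernel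
theorem kA_87 : chChk c506 t8A dtA cA_87 = true := by decide +kernel
theorem kA_88 : chChk c506 t8A dtA cA_88 = true := by decide +kernel
theorem kA_89 : chChk c506 t8A dtA cA_89 = true := by decide +kernel
theorem kA_90 : chChk c506 t8A dtA cA_90 = true := by decide +kernel
theorem kA_91 : chChk c506 t8A dtA cA_91 = true := by decide +kernel

theorem okA_0 : ChOK repA cA_0 := chChk_sound c506_eq t8A_eq dtA_eq kA_0
theorem okA_1 : ChOK repA cA_1 := chChk_sound c506_eq t8A_eq dtA_eq kA_1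
theorem okA_2 : ChOK repA cA_2 := chChk_sound c506_eq t8A_eq dtA_eq kA_2
theorem okA_3 : ChOK repA cA_3 := chChk_sound c506_eq t8A_eq dtA_eq kA_3
theorem okA_4 : ChOK repA cA_4 := chChk_sound c506_eq t8A_eq dtA_eq kA_4
theorem okA_5 : ChOK repA cA_5 := chChk_sound c506_eq t8A_eq dtA_eq kA_5
theorem okA_6 : ChOK repA cA_6 := chChk_sound c506_eq t8A_eq dtA_eq kA_6
theorem okA_7 : ChOK repA cA_7 := chChk_sound c506_eq t8A_eq dtA_eq kA_7
theorem okA_8 : ChOK repA cA_8 := chChk_sound c506_eq t8A_eq dtA_eq kA_8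
theorem okA_9 : ChOK repA cA_9 := chChk_sound c506_eq t8A_eq dtA_eq kA_9
theorem okA_10 : ChOK repA cA_10 := chChk_sound c506_eq t8A_eq dtA_eq kA_10
theorem okA_11 : ChOK repA cA_11 := chChk_sound c506_eq t8A_eq dtA_eq kA_11
theorem okA_12 : ChOK repA cA_12 := chChk_sound c506_eq t8A_eq dtA_eq kA_12
theorem okA_13 : ChOK repA cA_13 := chChk_sound c506_eq t8A_eq dtA_eq kA_13
theorem okA_14 : ChOK repA cA_14 := chChk_sound c506_eq t8A_eq dtA_eq kA_14
theorem okA_15 : ChOK repA cA_15 := chChk_sound c506_eq t8A_eq dtA_eq kA_15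
theorem okA_16 : ChOK repA cA_16 := chChk_sound c506_eq t8A_eq dtA_eq kA_16
theorem okA_17 : ChOK repA cA_17 := chChk_sound c506_eq t8A_eq dtA_eq kA_17
theorem okA_18 : ChOK repA cA_18 := chChk_sound c506_eq t8A_eq dtA_eq kA_18
theorem okA_19 : ChOK repA cA_19 := chChk_sound c506_eq t8A_eq dtA_eq kA_19
theorem okA_20 : ChOK repA cA_20 := chChk_sound c506_eq t8A_eq dtA_eq kA_20
theorem okA_21 : ChOK repA cA_21 := chChk_sound c506_eq t8A_eq dtA_eq kA_21
theorem okA_22 : ChOK repA cA_22 := chChk_sound c506_eq t8A_eq dtA_eq kA_22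
theorem okA_23 : ChOK repA cA_23 := chChk_sound c506_eq t8A_eq dtA_eq kA_23
theorem okA_24 : ChOK repA cA_24 := chChk_sound c506_eq t8A_eq dtA_eq kA_24
theorem okA_25 : ChOK repA cA_25 := chChk_sound c506_eq t8A_eq dtA_eq kA_25
theorem okA_26 : ChOK repA cA_26 := chChk_sound c506_eq t8A_eq dtA_eq kA_26
theorem okA_27 : ChOK repA cA_27 := chChk_sound c506_eq t8A_eq dtA_eq kA_27
theorem okA_28 : ChOK repA cA_28 := chChk_sound c506_eq t8A_eq dtA_eq kA_28
theorem okA_29 : ChOK repA cA_29 := chChk_sound c506_eq t8A_eq dtA_eq kA_29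
theorem okA_30 : ChOK repA cA_30 := chChk_sound c506_eq t8A_eq dtA_eq kA_30
theorem okA_31 : ChOK repA cA_31 := chChk_sound c506_eq t8A_eq dtA_eq kA_31
theorem okA_32 : ChOK repA cA_32 := chChk_sound c506_eq t8A_eq dtA_eq kA_32
theorem okA_33 : ChOK repA cA_33 := chChk_sound c506_eq t8A_eq dtA_eq kA_33
theorem okA_34 : ChOK repA cA_34 := chChk_sound c506_eq t8A_eq dtA_eq kA_34
theorem okA_35 : ChOK repA cA_35 := chChk_sound c506_eq t8A_eq dtA_eq kA_35
theorem okA_36 : ChOK repA cA_36 := chChk_sound c506_eq t8A_eq dtA_eq kA_36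
theorem okA_37 : ChOK repA cA_37 := chChk_sound c506_eq t8A_eq dtA_eq kA_37
theorem okA_38 : ChOK repA cA_38 := chChk_sound c506_eq t8A_eq dtA_eq kA_38
theorem okA_39 : ChOK repA cA_39 := chChk_sound c506_eq t8A_eq dtA_eq kA_39
theorem okA_40 : ChOK repA cA_40 := chChk_sound c506_eq t8A_eq dtA_eq kA_40
theorem okA_41 : ChOK repA cA_41 := chChk_sound c506_eq t8A_eq dtA_eq kA_41
theorem okA_42 : ChOK repA cA_42 := chChk_sound c506_eq t8A_eq dtA_eq kA_42
theorem okA_43 : ChOK repA cA_43 := chChk_sound c506_eq t8A_eq dtA_eq kA_43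
theorem okA_44 : ChOK repA cA_44 := chChk_sound c506_eq t8A_eq dtA_eq kA_44
theorem okA_45 : ChOK repA cA_45 := chChk_sound c506_eq t8A_eq dtA_eq kA_45
theorem okA_46 : ChOK repA cA_46 := chChk_sound c506_eq t8A_eq dtA_eq kA_46
theorem okA_47 : ChOK repA cA_47 := chChk_sound c506_eq t8A_eq dtA_eq kA_47
theorem okA_48 : ChOK repA cA_48 := chChk_sound c506_eq t8A_eq dtA_eq kA_48
theorem okA_49 : ChOK repA cA_49 := chChk_sound c506_eq t8A_eq dtA_eq kA_49
theorem okA_50 : ChOK repA cA_50 := chChk_sound c506_eq t8A_eq dtA_eq kA_50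
theorem okA_51 : ChOK repA cA_51 := chChk_sound c506_eq t8A_eq dtA_eq kA_51
theorem okA_52 : ChOK repA cA_52 := chChk_sound c506_eq t8A_eq dtA_eq kA_52
theorem okA_53 : ChOK repA cA_53 := chChk_sound c506_eq t8A_eq dtA_eq kA_53
theorem okA_54 : ChOK repA cA_54 := chChk_sound c506_eq t8A_eq dtA_eq kA_54
theorem okA_55 : ChOK repA cA_55 := chChk_sound c506_eq t8A_eq dtA_eq kA_55
theorem okA_56 : ChOK repA cA_56 := chChk_sound c506_eq t8A_eq dtA_eq kA_56
theorem okA_57 : ChOK repA cA_57 := chChk_sound c506_eq t8A_eq dtA_eq kA_57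
theorem okA_58 : ChOK repA cA_58 := chChk_sound c506_eq t8A_eq dtA_eq kA_58
theorem okA_59 : ChOK repA cA_59 := chChk_sound c506_eq t8A_eq dtA_eq kA_59
theorem okA_60 : ChOK repA cA_60 := chChk_sound c506_eq t8A_eq dtA_eq kA_60
theorem okA_61 : ChOK repA cA_61 := chChk_sound c506_eq t8A_eq dtA_eq kA_61
theorem okA_62 : ChOK repA cA_62 := chChk_sound c506_eq t8A_eq dtA_eq kA_62
theorem okA_63 : ChOK repA cA_63 := chChk_sound c506_eq t8A_eq dtA_eq kA_63
theorem okA_64 : ChOK repA cA_64 := chChk_sound c506_eq t8A_eq dtA_eq kA_64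
theorem okA_65 : ChOK repA cA_65 := chChk_sound c506_eq t8A_eq dtA_eq kA_65
theorem okA_66 : ChOK repA cA_66 := chChk_sound c506_eq t8A_eq dtA_eq kA_66
theorem okA_67 : ChOK repA cA_67 := chChk_sound c506_eq t8A_eq dtA_eq kA_67
theorem okA_68 : ChOK repA cA_68 := chChk_sound c506_eq t8A_eq dtA_eq kA_68
theorem okA_69 : ChOK repA cA_69 := chChk_sound c506_eq t8A_eq dtA_eq kA_69
theorem okA_70 : ChOK repA cA_70 := chChk_sound c506_eq t8A_eq dtA_eq kA_70
theorem okA_71 : ChOK repA cA_71 := chChk_sound c506_eq t8A_eq dtA_eq kA_71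
theorem okA_72 : ChOK repA cA_72 := chChk_sound c506_eq t8A_eq dtA_eq kA_72
theorem okA_73 : ChOK repA cA_73 := chChk_sound c506_eq t8A_eq dtA_eq kA_73
theorem okA_74 : ChOK repA cA_74 := chChk_sound c506_eq t8A_eq dtA_eq kA_74
theorem okA_75 : ChOK repA cA_75 := chChk_sound c506_eq t8A_eq dtA_eq kA_75
theorem okA_76 : ChOK repA cA_76 := chChk_sound c506_eq t8A_eq dtA_eq kA_76
theorem okA_77 : ChOK repA cA_77 := chChk_sound c506_eq t8A_eq dtA_eq kA_77
theorem okA_78 : ChOK repA cA_78 := chChk_sound c506_eq t8A_eq dtA_eq kA_78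
theorem okA_79 : ChOK repA cA_79 := chChk_sound c506_eq t8A_eq dtA_eq kA_79
theorem okA_80 : ChOK repA cA_80 := chChk_sound c506_eq t8A_eq dtA_eq kA_80
theorem okA_81 : ChOK repA cA_81 := chChk_sound c506_eq t8A_eq dtA_eq kA_81
theorem okA_82 : ChOK repA cA_82 := chChk_sound c506_eq t8A_eq dtA_eq kA_82
theorem okA_83 : ChOK repA cA_83 := chChk_sound c506_eq t8A_eq dtA_eq kA_83
theorem okA_84 : ChOK repA cA_84 := chChk_sound c506_eq t8A_eq dtA_eq kA_84
theorem okA_85 : ChOK repA cA_85 := chChk_sound c506_eq t8A_eq dtA_eq kA_85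
theorem okA_86 : ChOK repA cA_86 := chChk_sound c506_eq t8A_eq dtA_eq kA_86
theorem okA_87 : ChOK repA cA_87 := chChk_sound c506_eq t8A_eq dtA_eq kA_87
theorem okA_88 : ChOK repA cA_88 := chChk_sound c506_eq t8A_eq dtA_eq kA_88
theorem okA_89 : ChOK repA cA_89 := chChk_sound c506_eq t8A_eq dtA_eq kA_89
theorem okA_90 : ChOK repA cA_90 := chChk_sound c506_eq t8A_eq dtA_eq kA_90
theorem okA_91 : ChOK repA cA_91 := chChk_sound c506_eq t8A_eq dtA_eq kA_91

theorem okA : ∀ ch ∈ chA, ChOK repA ch :=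
  List.forall_mem_cons.2 ⟨okA_0,
  List.forall_mem_cons.2 ⟨okA_1,
  List.forall_mem_cons.2 ⟨okA_2,
  List.forall_mem_cons.2 ⟨okA_3,
  List.forall_mem_cons.2 ⟨okA_4,
  List.forall_mem_cons.2 ⟨okA_5,
  List.forall_mem_cons.2 ⟨okA_6,
  List.forall_mem_cons.2 ⟨okA_7,
  List.forall_mem_cons.2 ⟨okA_8,
  List.forall_mem_cons.2 ⟨okA_9,
  List.forall_mem_cons.2 ⟨okA_10,
  List.forall_mem_cons.2 ⟨okA_11,
  List.forall_mem_cons.2 ⟨okA_12,
  List.forall_mem_cons.2 ⟨okA_13,
  List.forall_mem_cons.2 ⟨okA_14,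
  List.forall_mem_cons.2 ⟨okA_15,
  List.forall_mem_cons.2 ⟨okA_16,
  List.forall_mem_cons.2 ⟨okA_17,
  List.forall_mem_cons.2 ⟨okA_18,
  List.forall_mem_cons.2 ⟨okA_19,
  List.forall_mem_cons.2 ⟨okA_20,
  List.forall_mem_cons.2 ⟨okA_21,
  List.forall_mem_cons.2 ⟨okA_22,
  List.forall_mem_cons.2 ⟨okA_23,
  List.forall_mem_cons.2 ⟨okA_24,
  List.forall_mem_cons.2 ⟨okA_25,
  List.forall_mem_cons.2 ⟨okA_26,
  List.forall_mem_cons.2 ⟨okA_27,
  List.forall_mem_cons.2 ⟨okA_28,
  List.forall_mem_cons.2 ⟨okA_29,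
  List.forall_mem_cons.2 ⟨okA_30,
  List.forall_mem_cons.2 ⟨okA_31,
  List.forall_mem_cons.2 ⟨okA_32,
  List.forall_mem_cons.2 ⟨okA_33,
  List.forall_mem_cons.2 ⟨okA_34,
  List.forall_mem_cons.2 ⟨okA_35,
  List.forall_mem_cons.2 ⟨okA_36,
  List.forall_mem_cons.2 ⟨okA_37,
  List.forall_mem_cons.2 ⟨okA_38,
  List.forall_mem_cons.2 ⟨okA_39,
  List.forall_mem_cons.2 ⟨okA_40,
  List.forall_mem_cons.2 ⟨okA_41,
  List.forall_mem_cons.2 ⟨okA_42,
  List.forall_mem_cons.2 ⟨okA_43,
  List.forall_mem_cons.2 ⟨okA_44,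
  List.forall_mem_cons.2 ⟨okA_45,
  List.forall_mem_cons.2 ⟨okA_46,
  List.forall_mem_cons.2 ⟨okA_47,
  List.forall_mem_cons.2 ⟨okA_48,
  List.forall_mem_cons.2 ⟨okA_49,
  List.forall_mem_cons.2 ⟨okA_50,
  List.forall_mem_cons.2 ⟨okA_51,
  List.forall_mem_cons.2 ⟨okA_52,
  List.forall_mem_cons.2 ⟨okA_53,
  List.forall_mem_cons.2 ⟨okA_54,
  List.forall_mem_cons.2 ⟨okA_55,
  List.forall_mem_cons.2 ⟨okA_56,
  List.forall_mem_cons.2 ⟨okA_57,
  List.forall_mem_cons.2 ⟨okA_58,
  List.forall_mem_cons.2 ⟨okA_59,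
  List.forall_mem_cons.2 ⟨okA_60,
  List.forall_mem_cons.2 ⟨okA_61,
  List.forall_mem_cons.2 ⟨okA_62,
  List.forall_mem_cons.2 ⟨okA_63,
  List.forall_mem_cons.2 ⟨okA_64,
  List.forall_mem_cons.2 ⟨okA_65,
  List.forall_mem_cons.2 ⟨okA_66,
  List.forall_mem_cons.2 ⟨okA_67,
  List.forall_mem_cons.2 ⟨okA_68,
  List.forall_mem_cons.2 ⟨okA_69,
  List.forall_mem_cons.2 ⟨okA_70,
  List.forall_mem_cons.2 ⟨okA_71,
  List.forall_mem_cons.2 ⟨okA_72,
  List.forall_mem_cons.2 ⟨okA_73,
  List.forall_mem_cons.2 ⟨okA_74,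
  List.forall_mem_cons.2 ⟨okA_75,
  List.forall_mem_cons.2 ⟨okA_76,
  List.forall_mem_cons.2 ⟨okA_77,
  List.forall_mem_cons.2 ⟨okA_78,
  List.forall_mem_cons.2 ⟨okA_79,
  List.forall_mem_cons.2 ⟨okA_80,
  List.forall_mem_cons.2 ⟨okA_81,
  List.forall_mem_cons.2 ⟨okA_82,
  List.forall_mem_cons.2 ⟨okA_83,
  List.forall_mem_cons.2 ⟨okA_84,
  List.forall_mem_cons.2 ⟨okA_85,
  List.forall_mem_cons.2 ⟨okA_86,
  List.forall_mem_cons.2 ⟨okA_87,
  List.forall_mem_cons.2 ⟨okA_88,
  List.forall_mem_cons.2 ⟨okA_89,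
  List.forall_mem_cons.2 ⟨okA_90,
  List.forall_mem_cons.2 ⟨okA_91,
  List.forall_mem_nil _⟩⟩⟩⟩⟩⟩⟩⟩⟩⟩⟩⟩⟩⟩⟩⟩⟩⟩⟩⟩⟩⟩⟩⟩⟩⟩⟩⟩⟩⟩⟩⟩⟩⟩⟩⟩⟩⟩⟩⟩⟩⟩⟩⟩⟩⟩⟩⟩⟩⟩⟩⟩⟩⟩⟩⟩⟩⟩⟩⟩⟩⟩⟩⟩⟩⟩⟩⟩⟩⟩⟩⟩⟩⟩⟩⟩⟩⟩⟩⟩⟩⟩⟩⟩⟩⟩⟩⟩⟩⟩⟩⟩

end Pool.Agent.Gen.TY.T
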