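import Pool.Agent.Gen.TY.T.EntB

/-!
MP_8ee768_co, project TH-Y', stage T: the chunks over `repB` are correct.
-/

set_option autoImplicit false
set_option maxRecDepth 100000
set_option exponentiation.threshold 600

namespace Pool.Agent.Gen.TY.T

open Pool.Agent.Helper30.TY Pool.Agent.Helper33.TY
open Pool.Agent.Helper79.CV Pool.Agent.Helper33.CV
open Pool.Agent.Helper67.TY (repA repB autA autB)

theorem kB_0 : chChk c506 t8B dtB cB_0 = true := by decide +kernel
theorem kB_1 : chChk c506 t8B dtB cB_1 = true := by decide +kernel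
theorem kB_2 : chChk c506 t8B dtB cB_2 = true := by decide +kernel
theorem kB_3 : chChk c506 t8B dtB cB_3 = true := by decide +kernel
theorem kB_4 : chChk c506 t8B dtB cB_4 = true := by decide +kernel
theorem kB_5 : chChk c506 t8B dtB cB_5 = true := by decide +kernel
theorem kB_6 : chChk c506 t8B dtB cB_6 = true := by decide +kernel
theorem kB_7 : chChk c506 t8B dtB cB_7 = true := by decide +kernel
theorem kB_8 : chChk c506 t8B dtB cB_8 = true := by decide +kernel
theorem kB_9 : chChk c506 t8B dtB cB_9 = true := by decide +kernel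
theorem kB_10 : chChk c506 t8B dtB cB_10 = true := by decide +kernel
theorem kB_11 : chChk c506 t8B dtB cB_11 = true := by decide +kernel
theorem kB_12 : chChk c506 t8B dtB cB_12 = true := by decide +kernel
theorem kB_13 : chChk c506 t8B dtB cB_13 = true := by decide +kernel
theorem kB_14 : chChk c506 t8B dtB cB_14 = true := by decide +kernel
theorem kB_15 : chChk c506 t8B dtB cB_15 = true := by decide +kernel
theorem kB_16 : chChk c506 t8B dtB cB_16 = true := by decide +kernel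
theorem kB_17 : chChk c506 t8B dtB cB_17 = true := by decide +kernel
theorem kB_18 : chChk c506 t8B dtB cB_18 = true := by decide +kernel
theorem kB_19 : chChk c506 t8B dtB cB_19 = true := by decide +kernel
theorem kB_20 : chChk c506 t8B dtB cB_20 = true := by decide +kernel
theorem kB_21 : chChk c506 t8B dtB cB_21 = true := by decide +kernel
theorem kB_22 : chChk c506 t8B dtB cB_22 = true := by decide +kernel
theorem kB_23 : chChk c506 t8B dtB cB_23 = true := by decide +kernel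
theorem kB_24 : chChk c506 t8B dtB cB_24 = true := by decide +kernel
theorem kB_25 : chChk c506 t8B dtB cB_25 = true := by decide +kernel
theorem kB_26 : chChk c506 t8B dtB cB_26 = true := by decide +kernel
theorem kB_27 : chChk c506 t8B dtB cB_27 = true := by decide +kernel
theorem kB_28 : chChk c506 t8B dtB cB_28 = true := by decide +kernel
theorem kB_29 : chChk c506 t8B dtB cB_29 = true := by decide +kernel
theorem kB_30 : chChk c506 t8B dtB cB_30 = true := by decide +kernel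
theorem kB_31 : chChk c506 t8B dtB cB_31 = true := by decide +kernel
theorem kB_32 : chChk c506 t8B dtB cB_32 = true := by decide +kernel
theorem kB_33 : chChk c506 t8B dtB cB_33 = true := by decide +kernel
theorem kB_34 : chChk c506 t8B dtB cB_34 = true := by decide +kernel
theorem kB_35 : chChk c506 t8B dtB cB_35 = true := by decide +kernel
theorem kB_36 : chChk c506 t8B dtB cB_36 = true := by decide +kernel
theorem kB_37 : chChk c506 t8B dtB cB_37 = true := by decide +kernel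
theorem kB_38 : chChk c506 t8B dtB cB_38 = true := by decide +kernel
theorem kB_39 : chChk c506 t8B dtB cB_39 = true := by decide +kernel
theorem kB_40 : chChk c506 t8B dtB cB_40 = true := by decide +kernel
theorem kB_41 : chChk c506 t8B dtB cB_41 = true := by decide +kernel
theorem kB_42 : chChk c506 t8B dtB cB_42 = true := by decide +kernel
theorem kB_43 : chChk c506 t8B dtB cB_43 = true := by decide +kernel
theorem kB_44 : chChk c506 t8B dtB cB_44 = true := by decide +kernel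
theorem kB_45 : chChk c506 t8B dtB cB_45 = true := by decide +kernel
theorem kB_46 : chChk c506 t8B dtB cB_46 = true := by decide +kernel
theorem kB_47 : chChk c506 t8B dtB cB_47 = true := by decide +kernel
theorem kB_48 : chChk c506 t8B dtB cB_48 = true := by decide +kernel
theorem kB_49 : chChk c506 t8B dtB cB_49 = true := by decide +kernel
theorem kB_50 : chChk c506 t8B dtB cB_50 = true := by decide +kernel
theorem kB_51 : chChk c506 t8B dtB cB_51 = true := by decide +kernel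
theorem kB_52 : chChk c506 t8B dtB cB_52 = true := by decide +kernel
theorem kB_53 : chChk c506 t8B dtB cB_53 = true := by decide +kernel
theorem kB_54 : chChk c506 t8B dtB cB_54 = true := by decide +kernel
theorem kB_55 : chChk c506 t8B dtB cB_55 = true := by decide +kernel
theorem kB_56 : chChk c506 t8B dtB cB_56 = true := by decide +kernel
theorem kB_57 : chChk c506 t8B dtB cB_57 = true := by decide +kernel
theorem kB_58 : chChk c506 t8B dtB cB_58 = true := by decide +kernel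
theorem kB_59 : chChk c506 t8B dtB cB_59 = true := by decide +kernel
theorem kB_60 : chChk c506 t8B dtB cB_60 = true := by decide +kernel
theorem kB_61 : chChk c506 t8B dtB cB_61 = true := by decide +kernel
theorem kB_62 : chChk c506 t8B dtB cB_62 = true := by decide +kernel
theorem kB_63 : chChk c506 t8B dtB cB_63 = true := by decide +kernel
theorem kB_64 : chChk c506 t8B dtB cB_64 = true := by decide +kernel
theorem kB_65 : chChk c506 t8B dtB cB_65 = true := by decide +kernel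
theorem kB_66 : chChk c506 t8B dtB cB_66 = true := by decide +kernel
theorem kB_67 : chChk c506 t8B dtB cB_67 = true := by decide +kernel
theorem kB_68 : chChk c506 t8B dtB cB_68 = true := by decide +kernel
theorem kB_69 : chChk c506 t8B dtB cB_69 = true := by decide +kernel
theorem kB_70 : chChk c506 t8B dtB cB_70 = true := by decide +kernel
theorem kB_71 : chChk c506 t8B dtB cB_71 = true := by decide +kernel
theorem kB_72 : chChk c506 t8B dtB cB_72 = true := by decide +kernel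
theorem kB_73 : chChk c506 t8B dtB cB_73 = true := by decide +kernel
theorem kB_74 : chChk c506 t8B dtB cB_74 = true := by decide +kernel
theorem kB_75 : chChk c506 t8B dtB cB_75 = true := by decide +kernel
theorem kB_76 : chChk c506 t8B dtB cB_76 = true := by decide +kernel
theorem kB_77 : chChk c506 t8B dtB cB_77 = true := by decide +kernel
theorem kB_78 : chChk c506 t8B dtB cB_78 = true := by decide +kernel
theorem kB_79 : chChk c506 t8B dtB cB_79 = true := by decide +kernel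
theorem kB_80 : chChk c506 t8B dtB cB_80 = true := by decide +kernel
theorem kB_81 : chChk c506 t8B dtB cB_81 = true := by decide +kernel
theorem kB_82 : chChk c506 t8B dtB cB_82 = true := by decide +kernel
theorem kB_83 : chChk c506 t8B dtB cB_83 = true := by decide +kernel
theorem kB_84 : chChk c506 t8B dtB cB_84 = true := by decide +kernel
theorem kB_85 : chChk c506 t8B dtB cB_85 = true := by decide +kernel
theorem kB_86 : chChk c506 t8B dtB cB_86 = true := by decide +kernel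
theorem kB_87 : chChk c506 t8B dtB cB_87 = true := by decide +kernel
theorem kB_88 : chChk c506 t8B dtB cB_88 = true := by decide +kernel
theorem kB_89 : chChk c506 t8B dtB cB_89 = true := by decide +kernel
theorem kB_90 : chChk c506 t8B dtB cB_90 = true := by decide +kernel
theorem kB_91 : chChk c506 t8B dtB cB_91 = true := by decide +kernel

theorem okB_0 : ChOK repB cB_0 := chChk_sound c506_eq t8B_eq dtB_eq kB_0
theorem okB_1 : ChOK repB cB_1 := chChk_sound c506_eq t8B_eq dtB_eq kB_1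
theorem okB_2 : ChOK repB cB_2 := chChk_sound c506_eq t8B_eq dtB_eq kB_2
theorem okB_3 : ChOK repB cB_3 := chChk_sound c506_eq t8B_eq dtB_eq kB_3
theorem okB_4 : ChOK repB cB_4 := chChk_sound c506_eq t8B_eq dtB_eq kB_4
theorem okB_5 : ChOK repB cB_5 := chChk_sound c506_eq t8B_eq dtB_eq kB_5
theorem okB_6 : ChOK repB cB_6 := chChk_sound c506_eq t8B_eq dtB_eq kB_6
theorem okB_7 : ChOK repB cB_7 := chChk_sound c506_eq t8B_eq dtB_eq kB_7
theorem okB_8 : ChOK repB cB_8 := chChk_sound c506_eq t8B_eq dtB_eq kB_8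
theorem okB_9 : ChOK repB cB_9 := chChk_sound c506_eq t8B_eq dtB_eq kB_9
theorem okB_10 : ChOK repB cB_10 := chChk_sound c506_eq t8B_eq dtB_eq kB_10
theorem okB_11 : ChOK repB cB_11 := chChk_sound c506_eq t8B_eq dtB_eq kB_11
theorem okB_12 : ChOK repB cB_12 := chChk_sound c506_eq t8B_eq dtB_eq kB_12
theorem okB_13 : ChOK repB cB_13 := chChk_sound c506_eq t8B_eq dtB_eq kB_13
theorem okB_14 : ChOK repB cB_14 := chChk_sound c506_eq t8B_eq dtB_eq kB_14
theorem okB_15 : ChOK repB cB_15 := chChk_sound c506_eq t8B_eq dtB_eq kB_15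
theorem okB_16 : ChOK repB cB_16 := chChk_sound c506_eq t8B_eq dtB_eq kB_16
theorem okB_17 : ChOK repB cB_17 := chChk_sound c506_eq t8B_eq dtB_eq kB_17
theorem okB_18 : ChOK repB cB_18 := chChk_sound c506_eq t8B_eq dtB_eq kB_18
theorem okB_19 : ChOK repB cB_19 := chChk_sound c506_eq t8B_eq dtB_eq kB_19
theorem okB_20 : ChOK repB cB_20 := chChk_sound c506_eq t8B_eq dtB_eq kB_20
theorem okB_21 : ChOK repB cB_21 := chChk_sound c506_eq t8B_eq dtB_eq kB_21
theorem okB_22 : ChOK repB cB_22 := chChk_sound c506_eq t8B_eq dtB_eq kB_22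
theorem okB_23 : ChOK repB cB_23 := chChk_sound c506_eq t8B_eq dtB_eq kB_23
theorem okB_24 : ChOK repB cB_24 := chChk_sound c506_eq t8B_eq dtB_eq kB_24
theorem okB_25 : ChOK repB cB_25 := chChk_sound c506_eq t8B_eq dtB_eq kB_25
theorem okB_26 : ChOK repB cB_26 := chChk_sound c506_eq t8B_eq dtB_eq kB_26
theorem okB_27 : ChOK repB cB_27 := chChk_sound c506_eq t8B_eq dtB_eq kB_27
theorem okB_28 : ChOK repB cB_28 := chChk_sound c506_eq t8B_eq dtB_eq kB_28
theorem okB_29 : ChOK repB cB_29 := chChk_sound c506_eq t8B_eq dtB_eq kB_29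
theorem okB_30 : ChOK repB cB_30 := chChk_sound c506_eq t8B_eq dtB_eq kB_30
theorem okB_31 : ChOK repB cB_31 := chChk_sound c506_eq t8B_eq dtB_eq kB_31
theorem okB_32 : ChOK repB cB_32 := chChk_sound c506_eq t8B_eq dtB_eq kB_32
theorem okB_33 : ChOK repB cB_33 := chChk_sound c506_eq t8B_eq dtB_eq kB_33
theorem okB_34 : ChOK repB cB_34 := chChk_sound c506_eq t8B_eq dtB_eq kB_34
theorem okB_35 : ChOK repB cB_35 := chChk_sound c506_eq t8B_eq dtB_eq kB_35
theorem okB_36 : ChOK repB cB_36 := chChk_sound c506_eq t8B_eq dtB_eq kB_36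
theorem okB_37 : ChOK repB cB_37 := chChk_sound c506_eq t8B_eq dtB_eq kB_37
theorem okB_38 : ChOK repB cB_38 := chChk_sound c506_eq t8B_eq dtB_eq kB_38
theorem okB_39 : ChOK repB cB_39 := chChk_sound c506_eq t8B_eq dtB_eq kB_39
theorem okB_40 : ChOK repB cB_40 := chChk_sound c506_eq t8B_eq dtB_eq kB_40
theorem okB_41 : ChOK repB cB_41 := chChk_sound c506_eq t8B_eq dtB_eq kB_41
theorem okB_42 : ChOK repB cB_42 := chChk_sound c506_eq t8B_eq dtB_eq kB_42
theorem okB_43 : ChOK repB cB_43 := chChk_sound c506_eq t8B_eq dtB_eq kB_43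
theorem okB_44 : ChOK repB cB_44 := chChk_sound c506_eq t8B_eq dtB_eq kB_44
theorem okB_45 : ChOK repB cB_45 := chChk_sound c506_eq t8B_eq dtB_eq kB_45
theorem okB_46 : ChOK repB cB_46 := chChk_sound c506_eq t8B_eq dtB_eq kB_46
theorem okB_47 : ChOK repB cB_47 := chChk_sound c506_eq t8B_eq dtB_eq kB_47
theorem okB_48 : ChOK repB cB_48 := chChk_sound c506_eq t8B_eq dtB_eq kB_48
theorem okB_49 : ChOK repB cB_49 := chChk_sound c506_eq t8B_eq dtB_eq kB_49
theorem okB_50 : ChOK repB cB_50 := chChk_sound c506_eq t8B_eq dtB_eq kB_50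
theorem okB_51 : ChOK repB cB_51 := chChk_sound c506_eq t8B_eq dtB_eq kB_51
theorem okB_52 : ChOK repB cB_52 := chChk_sound c506_eq t8B_eq dtB_eq kB_52
theorem okB_53 : ChOK repB cB_53 := chChk_sound c506_eq t8B_eq dtB_eq kB_53
theorem okB_54 : ChOK repB cB_54 := chChk_sound c506_eq t8B_eq dtB_eq kB_54
theorem okB_55 : ChOK repB cB_55 := chChk_sound c506_eq t8B_eq dtB_eq kB_55
theorem okB_56 : ChOK repB cB_56 := chChk_sound c506_eq t8B_eq dtB_eq kB_56
theorem okB_57 : ChOK repB cB_57 := chChk_sound c506_eq t8B_eq dtB_eq kB_57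
theorem okB_58 : ChOK repB cB_58 := chChk_sound c506_eq t8B_eq dtB_eq kB_58
theorem okB_59 : ChOK repB cB_59 := chChk_sound c506_eq t8B_eq dtB_eq kB_59
theorem okB_60 : ChOK repB cB_60 := chChk_sound c506_eq t8B_eq dtB_eq kB_60
theorem okB_61 : ChOK repB cB_61 := chChk_sound c506_eq t8B_eq dtB_eq kB_61
theorem okB_62 : ChOK repB cB_62 := chChk_sound c506_eq t8B_eq dtB_eq kB_62
theorem okB_63 : ChOK repB cB_63 := chChk_sound c506_eq t8B_eq dtB_eq kB_63
theorem okB_64 : ChOK repB cB_64 := chChk_sound c506_eq t8B_eq dtB_eq kB_64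
theorem okB_65 : ChOK repB cB_65 := chChk_sound c506_eq t8B_eq dtB_eq kB_65
theorem okB_66 : ChOK repB cB_66 := chChk_sound c506_eq t8B_eq dtB_eq kB_66
theorem okB_67 : ChOK repB cB_67 := chChk_sound c506_eq t8B_eq dtB_eq kB_67
theorem okB_68 : ChOK repB cB_68 := chChk_sound c506_eq t8B_eq dtB_eq kB_68
theorem okB_69 : ChOK repB cB_69 := chChk_sound c506_eq t8B_eq dtB_eq kB_69
theorem okB_70 : ChOK repB cB_70 := chChk_sound c506_eq t8B_eq dtB_eq kB_70
theorem okB_71 : ChOK repB cB_71 := chChk_sound c506_eq t8B_eq dtB_eq kB_71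
theorem okB_72 : ChOK repB cB_72 := chChk_sound c506_eq t8B_eq dtB_eq kB_72
theorem okB_73 : ChOK repB cB_73 := chChk_sound c506_eq t8B_eq dtB_eq kB_73
theorem okB_74 : ChOK repB cB_74 := chChk_sound c506_eq t8B_eq dtB_eq kB_74
theorem okB_75 : ChOK repB cB_75 := chChk_sound c506_eq t8B_eq dtB_eq kB_75
theorem okB_76 : ChOK repB cB_76 := chChk_sound c506_eq t8B_eq dtB_eq kB_76
theorem okB_77 : ChOK repB cB_77 := chChk_sound c506_eq t8B_eq dtB_eq kB_77
theorem okB_78 : ChOK repB cB_78 := chChk_sound c506_eq t8B_eq dtB_eq kB_78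
theorem okB_79 : ChOK repB cB_79 := chChk_sound c506_eq t8B_eq dtB_eq kB_79
theorem okB_80 : ChOK repB cB_80 := chChk_sound c506_eq t8B_eq dtB_eq kB_80
theorem okB_81 : ChOK repB cB_81 := chChk_sound c506_eq t8B_eq dtB_eq kB_81
theorem okB_82 : ChOK repB cB_82 := chChk_sound c506_eq t8B_eq dtB_eq kB_82
theorem okB_83 : ChOK repB cB_83 := chChk_sound c506_eq t8B_eq dtB_eq kB_83
theorem okB_84 : ChOK repB cB_84 := chChk_sound c506_eq t8B_eq dtB_eq kB_84
theorem okB_85 : ChOK repB cB_85 := chChk_sound c506_eq t8B_eq dtB_eq kB_85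
theorem okB_86 : ChOK repB cB_86 := chChk_sound c506_eq t8B_eq dtB_eq kB_86
theorem okB_87 : ChOK repB cB_87 := chChk_sound c506_eq t8B_eq dtB_eq kB_87
theorem okB_88 : ChOK repB cB_88 := chChk_sound c506_eq t8B_eq dtB_eq kB_88
theorem okB_89 : ChOK repB cB_89 := chChk_sound c506_eq t8B_eq dtB_eq kB_89
theorem okB_90 : ChOK repB cB_90 := chChk_sound c506_eq t8B_eq dtB_eq kB_90
theorem okB_91 : ChOK repB cB_91 := chChk_sound c506_eq t8B_eq dtB_eq kB_91

theorem okB : ∀ ch ∈ chB, ChOK repB ch :=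
  List.forall_mem_cons.2 ⟨okB_0,
  List.forall_mem_cons.2 ⟨okB_1,
  List.forall_mem_cons.2 ⟨okB_2,
  List.forall_mem_cons.2 ⟨okB_3,
  List.forall_mem_cons.2 ⟨okB_4,
  List.forall_mem_cons.2 ⟨okB_5,
  List.forall_mem_cons.2 ⟨okB_6,
  List.forall_mem_cons.2 ⟨okB_7,
  List.forall_mem_cons.2 ⟨okB_8,
  List.forall_mem_cons.2 ⟨okB_9,
  List.forall_mem_cons.2 ⟨okB_10,
  List.forall_mem_cons.2 ⟨okB_11,
  List.forall_mem_cons.2 ⟨okB_12,
  List.forall_mem_cons.2 ⟨okB_13,
  List.forall_mem_cons.2 ⟨okB_14,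
  List.forall_mem_cons.2 ⟨okB_15,
  List.forall_mem_cons.2 ⟨okB_16,
  List.forall_mem_cons.2 ⟨okB_17,
  List.forall_mem_cons.2 ⟨okB_18,
  List.forall_mem_cons.2 ⟨okB_19,
  List.forall_mem_cons.2 ⟨okB_20,
  List.forall_mem_cons.2 ⟨okB_21,
  List.forall_mem_cons.2 ⟨okB_22,
  List.forall_mem_cons.2 ⟨okB_23,
  List.forall_mem_cons.2 ⟨okB_24,
  List.forall_mem_cons.2 ⟨okB_25,
  List.forall_mem_cons.2 ⟨okB_26,
  List.forall_mem_cons.2 ⟨okB_27,
  List.forall_mem_cons.2 ⟨okB_28,
  List.forall_mem_cons.2 ⟨okB_29,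
  List.forall_mem_cons.2 ⟨okB_30,
  List.forall_mem_cons.2 ⟨okB_31,
  List.forall_mem_cons.2 ⟨okB_32,
  List.forall_mem_cons.2 ⟨okB_33,
  List.forall_mem_cons.2 ⟨okB_34,
  List.forall_mem_cons.2 ⟨okB_35,
  List.forall_mem_cons.2 ⟨okB_36,
  List.forall_mem_cons.2 ⟨okB_37,
  List.forall_mem_cons.2 ⟨okB_38,
  List.forall_mem_cons.2 ⟨okB_39,
  List.forall_mem_cons.2 ⟨okB_40,
  List.forall_mem_cons.2 ⟨okB_41,
  List.forall_mem_cons.2 ⟨okB_42,
  List.forall_mem_cons.2 ⟨okB_43,
  List.forall_mem_cons.2 ⟨okB_44,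
  List.forall_mem_cons.2 ⟨okB_45,
  List.forall_mem_cons.2 ⟨okB_46,
  List.forall_mem_cons.2 ⟨okB_47,
  List.forall_mem_cons.2 ⟨okB_48,
  List.forall_mem_cons.2 ⟨okB_49,
  List.forall_mem_cons.2 ⟨okB_50,
  List.forall_mem_cons.2 ⟨okB_51,
  List.forall_mem_cons.2 ⟨okB_52,
  List.forall_mem_cons.2 ⟨okB_53,
  List.forall_mem_cons.2 ⟨okB_54,
  List.forall_mem_cons.2 ⟨okB_55,
  List.forall_mem_cons.2 ⟨okB_56,
  List.forall_mem_cons.2 ⟨okB_57,
  List.forall_mem_cons.2 ⟨okB_58,
  List.forall_mem_cons.2 ⟨okB_59,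
  List.forall_mem_cons.2 ⟨okB_60,
  List.forall_mem_cons.2 ⟨okB_61,
  List.forall_mem_cons.2 ⟨okB_62,
  List.forall_mem_cons.2 ⟨okB_63,
  List.forall_mem_cons.2 ⟨okB_64,
  List.forall_mem_cons.2 ⟨okB_65,
  List.forall_mem_cons.2 ⟨okB_66,
  List.forall_mem_cons.2 ⟨okB_67,
  List.forall_mem_cons.2 ⟨okB_68,
  List.forall_mem_cons.2 ⟨okB_69,
  List.forall_mem_cons.2 ⟨okB_70,
  List.forall_mem_cons.2 ⟨okB_71,
  List.forall_mem_cons.2 ⟨okB_72,
  List.forall_mem_cons.2 ⟨okB_73,
  List.forall_mem_cons.2 ⟨okB_74,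
  List.forall_mem_cons.2 ⟨okB_75,
  List.forall_mem_cons.2 ⟨okB_76,
  List.forall_mem_cons.2 ⟨okB_77,
  List.forall_mem_cons.2 ⟨okB_78,
  List.forall_mem_cons.2 ⟨okB_79,
  List.forall_mem_cons.2 ⟨okB_80,
  List.forall_mem_cons.2 ⟨okB_81,
  List.forall_mem_cons.2 ⟨okB_82,
  List.forall_mem_cons.2 ⟨okB_83,
  List.forall_mem_cons.2 ⟨okB_84,
  List.forall_mem_cons.2 ⟨okB_85,
  List.forall_mem_cons.2 ⟨okB_86,
  List.forall_mem_cons.2 ⟨okB_87,
  List.forall_mem_cons.2 ⟨okB_88,
  List.forall_mem_cons.2 ⟨okB_89,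
  List.forall_mem_cons.2 ⟨okB_90,
  List.forall_mem_cons.2 ⟨okB_91,
  List.forall_mem_nil _⟩⟩⟩⟩⟩⟩⟩⟩⟩⟩⟩⟩⟩⟩⟩⟩⟩⟩⟩⟩⟩⟩⟩⟩⟩⟩⟩⟩⟩⟩⟩⟩⟩⟩⟩⟩⟩⟩⟩⟩⟩⟩⟩⟩⟩⟩⟩⟩⟩⟩⟩⟩⟩⟩⟩⟩⟩⟩⟩⟩⟩⟩⟩⟩⟩⟩⟩⟩⟩⟩⟩⟩⟩⟩⟩⟩⟩⟩⟩⟩⟩⟩⟩⟩⟩⟩⟩⟩⟩⟩⟩⟩

end Pool.Agent.Gen.TY.T
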