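import Pool.Agent.Gen.TY.T.FrA

/-!
MP_8ee768_co, project TH-Y', stage T: the frames over `repA` are correct.
-/

set_option autoImplicit false
set_option maxRecDepth 100000
set_option exponentiation.threshold 600

namespace Pool.Agent.Gen.TY.T

open Pool.Agent.Helper30.TY Pool.Agent.Helper33.TY
open Pool.Agent.Helper79.CV Pool.Agent.Helper33.CV
open Pool.Agent.Helper67.TY (repA repB autA autB)

theorem gA_0 : allL (frChk1 repA c495 c506 c330 t8A dtA topM) bA_0 = true := by decide +kernel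
theorem gA_1 : allL (frChk1 repA c495 c506 c330 t8A dtA topM) bA_1 = true := by decide +kernel
theorem gA_2 : allL (frChk1 repA c495 c506 c330 t8A dtA topM) bA_2 = true := by decide +kernel
theorem gA_3 : allL (frChk1 repA c495 c506 c330 t8A dtA topM) bA_3 = true := by decide +kernel
theorem gA_4 : allL (frChk1 repA c495 c506 c330 t8A dtA topM) bA_4 = true := by decide +kernel
theorem gA_5 : allL (frChk1 repA c495 c506 c330 t8A dtA topM) bA_5 = true := by decide +kernel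
theorem gA_6 : allL (frChk1 repA c495 c506 c330 t8A dtA topM) bA_6 = true := by decide +kernel
theorem gA_7 : allL (frChk1 repA c495 c506 c330 t8A dtA topM) bA_7 = true := by decide +kernel
theorem gA_8 : allL (frChk1 repA c495 c506 c330 t8A dtA topM) bA_8 = true := by decide +kernel
theorem gA_9 : allL (frChk1 repA c495 c506 c330 t8A dtA topM) bA_9 = true := by decide +kernel
theorem gA_10 : allL (frChk1 repA c495 c506 c330 t8A dtA topM) bA_10 = true := by decide +kernel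
theorem gA_11 : allL (frChk1 repA c495 c506 c330 t8A dtA topM) bA_11 = true := by decide +kernel
theorem gA_12 : allL (frChk1 repA c495 c506 c330 t8A dtA topM) bA_12 = true := by decide +kernel
theorem gA_13 : allL (frChk1 repA c495 c506 c330 t8A dtA topM) bA_13 = true := by decide +kernel
theorem gA_14 : allL (frChk1 repA c495 c506 c330 t8A dtA topM) bA_14 = true := by decide +kernel
theorem gA_15 : allL (frChk1 repA c495 c506 c330 t8A dtA topM) bA_15 = true := by decide +kernel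
theorem gA_16 : allL (frChk1 repA c495 c506 c330 t8A dtA topM) bA_16 = true := by decide +kernel
theorem gA_17 : allL (frChk1 repA c495 c506 c330 t8A dtA topM) bA_17 = true := by decide +kernel
theorem gA_18 : allL (frChk1 repA c495 c506 c330 t8A dtA topM) bA_18 = true := by decide +kernel
theorem gA_19 : allL (frChk1 repA c495 c506 c330 t8A dtA topM) bA_19 = true := by decide +kernel
theorem gA_20 : allL (frChk1 repA c495 c506 c330 t8A dtA topM) bA_20 = true := by decide +kernel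
theorem gA_21 : allL (frChk1 repA c495 c506 c330 t8A dtA topM) bA_21 = true := by decide +kernel
theorem gA_22 : allL (frChk1 repA c495 c506 c330 t8A dtA topM) bA_22 = true := by decide +kernel
theorem gA_23 : allL (frChk1 repA c495 c506 c330 t8A dtA topM) bA_23 = true := by decide +kernel
theorem gA_24 : allL (frChk1 repA c495 c506 c330 t8A dtA topM) bA_24 = true := by decide +kernel
theorem gA_25 : allL (frChk1 repA c495 c506 c330 t8A dtA topM) bA_25 = true := by decide +kernel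
theorem gA_26 : allL (frChk1 repA c495 c506 c330 t8A dtA topM) bA_26 = true := by decide +kernel
theorem gA_27 : allL (frChk1 repA c495 c506 c330 t8A dtA topM) bA_27 = true := by decide +kernel
theorem gA_28 : allL (frChk1 repA c495 c506 c330 t8A dtA topM) bA_28 = true := by decide +kernel
theorem gA_29 : allL (frChk1 repA c495 c506 c330 t8A dtA topM) bA_29 = true := by decide +kernel
theorem gA_30 : allL (frChk1 repA c495 c506 c330 t8A dtA topM) bA_30 = true := by decide +kernel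
theorem gA_31 : allL (frChk1 repA c495 c506 c330 t8A dtA topM) bA_31 = true := by decide +kernel
theorem gA_32 : allL (frChk1 repA c495 c506 c330 t8A dtA topM) bA_32 = true := by decide +kernel
theorem gA_33 : allL (frChk1 repA c495 c506 c330 t8A dtA topM) bA_33 = true := by decide +kernel
theorem gA_34 : allL (frChk1 repA c495 c506 c330 t8A dtA topM) bA_34 = true := by decide +kernel
theorem gA_35 : allL (frChk1 repA c495 c506 c330 t8A dtA topM) bA_35 = true := by decide +kernel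
theorem gA_36 : allL (frChk1 repA c495 c506 c330 t8A dtA topM) bA_36 = true := by decide +kernel
theorem gA_37 : allL (frChk1 repA c495 c506 c330 t8A dtA topM) bA_37 = true := by decide +kernel
theorem gA_38 : allL (frChk1 repA c495 c506 c330 t8A dtA topM) bA_38 = true := by decide +kernel
theorem gA_39 : allL (frChk1 repA c495 c506 c330 t8A dtA topM) bA_39 = true := by decide +kernel
theorem gA_40 : allL (frChk1 repA c495 c506 c330 t8A dtA topM) bA_40 = true := by decide +kernel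
theorem gA_41 : allL (frChk1 repA c495 c506 c330 t8A dtA topM) bA_41 = true := by decide +kernel
theorem gA_42 : allL (frChk1 repA c495 c506 c330 t8A dtA topM) bA_42 = true := by decide +kernel
theorem gA_43 : allL (frChk1 repA c495 c506 c330 t8A dtA topM) bA_43 = true := by decide +kernel
theorem gA_44 : allL (frChk1 repA c495 c506 c330 t8A dtA topM) bA_44 = true := by decide +kernel
theorem gA_45 : allL (frChk1 repA c495 c506 c330 t8A dtA topM) bA_45 = true := by decide +kernel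
theorem gA_46 : allL (frChk1 repA c495 c506 c330 t8A dtA topM) bA_46 = true := by decide +kernel
theorem gA_47 : allL (frChk1 repA c495 c506 c330 t8A dtA topM) bA_47 = true := by decide +kernel
theorem gA_48 : allL (frChk1 repA c495 c506 c330 t8A dtA topM) bA_48 = true := by decide +kernel
theorem gA_49 : allL (frChk1 repA c495 c506 c330 t8A dtA topM) bA_49 = true := by decide +kernel
theorem gA_50 : allL (frChk1 repA c495 c506 c330 t8A dtA topM) bA_50 = true := by decide +kernel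
theorem gA_51 : allL (frChk1 repA c495 c506 c330 t8A dtA topM) bA_51 = true := by decide +kernel
theorem gA_52 : allL (frChk1 repA c495 c506 c330 t8A dtA topM) bA_52 = true := by decide +kernel
theorem gA_53 : allL (frChk1 repA c495 c506 c330 t8A dtA topM) bA_53 = true := by decide +kernel
theorem gA_54 : allL (frChk1 repA c495 c506 c330 t8A dtA topM) bA_54 = true := by decide +kernel
theorem gA_55 : allL (frChk1 repA c495 c506 c330 t8A dtA topM) bA_55 = true := by decide +kernel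
theorem gA_56 : allL (frChk1 repA c495 c506 c330 t8A dtA topM) bA_56 = true := by decide +kernel
theorem gA_57 : allL (frChk1 repA c495 c506 c330 t8A dtA topM) bA_57 = true := by decide +kernel
theorem gA_58 : allL (frChk1 repA c495 c506 c330 t8A dtA topM) bA_58 = true := by decide +kernel
theorem gA_59 : allL (frChk1 repA c495 c506 c330 t8A dtA topM) bA_59 = true := by decide +kernel
theorem gA_60 : allL (frChk1 repA c495 c506 c330 t8A dtA topM) bA_60 = true := by decide +kernel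
theorem gA_61 : allL (frChk1 repA c495 c506 c330 t8A dtA topM) bA_61 = true := by decide +kernel
theorem gA_62 : allL (frChk1 repA c495 c506 c330 t8A dtA topM) bA_62 = true := by decide +kernel
theorem gA_63 : allL (frChk1 repA c495 c506 c330 t8A dtA topM) bA_63 = true := by decide +kernel
theorem gA_64 : allL (frChk1 repA c495 c506 c330 t8A dtA topM) bA_64 = true := by decide +kernel
theorem gA_65 : allL (frChk1 repA c495 c506 c330 t8A dtA topM) bA_65 = true := by decide +kernel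
theorem gA_66 : allL (frChk1 repA c495 c506 c330 t8A dtA topM) bA_66 = true := by decide +kernel
theorem gA_67 : allL (frChk1 repA c495 c506 c330 t8A dtA topM) bA_67 = true := by decide +kernel
theorem gA_68 : allL (frChk1 repA c495 c506 c330 t8A dtA topM) bA_68 = true := by decide +kernel
theorem gA_69 : allL (frChk1 repA c495 c506 c330 t8A dtA topM) bA_69 = true := by decide +kernel
theorem gA_70 : allL (frChk1 repA c495 c506 c330 t8A dtA topM) bA_70 = true := by decide +kernel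
theorem gA_71 : allL (frChk1 repA c495 c506 c330 t8A dtA topM) bA_71 = true := by decide +kernel
theorem gA_72 : allL (frChk1 repA c495 c506 c330 t8A dtA topM) bA_72 = true := by decide +kernel
theorem gA_73 : allL (frChk1 repA c495 c506 c330 t8A dtA topM) bA_73 = true := by decide +kernel
theorem gA_74 : allL (frChk1 repA c495 c506 c330 t8A dtA topM) bA_74 = true := by decide +kernel
theorem gA_75 : allL (frChk1 repA c495 c506 c330 t8A dtA topM) bA_75 = true := by decide +kernel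
theorem gA_76 : allL (frChk1 repA c495 c506 c330 t8A dtA topM) bA_76 = true := by decide +kernel
theorem gA_77 : allL (frChk1 repA c495 c506 c330 t8A dtA topM) bA_77 = true := by decide +kernel
theorem gA_78 : allL (frChk1 repA c495 c506 c330 t8A dtA topM) bA_78 = true := by decide +kernel
theorem gA_79 : allL (frChk1 repA c495 c506 c330 t8A dtA topM) bA_79 = true := by decide +kernel
theorem gA_80 : allL (frChk1 repA c495 c506 c330 t8A dtA topM) bA_80 = true := by decide +kernel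
theorem gA_81 : allL (frChk1 repA c495 c506 c330 t8A dtA topM) bA_81 = true := by decide +kernel
theorem gA_82 : allL (frChk1 repA c495 c506 c330 t8A dtA topM) bA_82 = true := by decide +kernel
theorem gA_83 : allL (frChk1 repA c495 c506 c330 t8A dtA topM) bA_83 = true := by decide +kernel
theorem gA_84 : allL (frChk1 repA c495 c506 c330 t8A dtA topM) bA_84 = true := by decide +kernel
theorem gA_85 : allL (frChk1 repA c495 c506 c330 t8A dtA topM) bA_85 = true := by decide +kernel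
theorem gA_86 : allL (frChk1 repA c495 c506 c330 t8A dtA topM) bA_86 = true := by decide +kernel
theorem gA_87 : allL (frChk1 repA c495 c506 c330 t8A dtA topM) bA_87 = true := by decide +kernel
theorem gA_88 : allL (frChk1 repA c495 c506 c330 t8A dtA topM) bA_88 = true := by decide +kernel
theorem gA_89 : allL (frChk1 repA c495 c506 c330 t8A dtA topM) bA_89 = true := by decide +kernel
theorem gA_90 : allL (frChk1 repA c495 c506 c330 t8A dtA topM) bA_90 = true := by decide +kernel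
theorem gA_91 : allL (frChk1 repA c495 c506 c330 t8A dtA topM) bA_91 = true := by decide +kernel
theorem gA_92 : allL (frChk1 repA c495 c506 c330 t8A dtA topM) bA_92 = true := by decide +kernel
theorem gA_93 : allL (frChk1 repA c495 c506 c330 t8A dtA topM) bA_93 = true := by decide +kernel
theorem gA_94 : allL (frChk1 repA c495 c506 c330 t8A dtA topM) bA_94 = true := by decide +kernel
theorem gA_95 : allL (frChk1 repA c495 c506 c330 t8A dtA topM) bA_95 = true := by decide +kernel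
theorem gA_96 : allL (frChk1 repA c495 c506 c330 t8A dtA topM) bA_96 = true := by decide +kernel
theorem gA_97 : allL (frChk1 repA c495 c506 c330 t8A dtA topM) bA_97 = true := by decide +kernel
theorem gA_98 : allL (frChk1 repA c495 c506 c330 t8A dtA topM) bA_98 = true := by decide +kernel
theorem gA_99 : allL (frChk1 repA c495 c506 c330 t8A dtA topM) bA_99 = true := by decide +kernel
theorem gA_100 : allL (frChk1 repA c495 c506 c330 t8A dtA topM) bA_100 = true := by decide +kernel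
theorem gA_101 : allL (frChk1 repA c495 c506 c330 t8A dtA topM) bA_101 = true := by decide +kernel
theorem gA_102 : allL (frChk1 repA c495 c506 c330 t8A dtA topM) bA_102 = true := by decide +kernel
theorem gA_103 : allL (frChk1 repA c495 c506 c330 t8A dtA topM) bA_103 = true := by decide +kernel
theorem gA_104 : allL (frChk1 repA c495 c506 c330 t8A dtA topM) bA_104 = true := by decide +kernel
theorem gA_105 : allL (frChk1 repA c495 c506 c330 t8A dtA topM) bA_105 = true := by decide +kernel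
theorem gA_106 : allL (frChk1 repA c495 c506 c330 t8A dtA topM) bA_106 = true := by decide +kernel
theorem gA_107 : allL (frChk1 repA c495 c506 c330 t8A dtA topM) bA_107 = true := by decide +kernel
theorem gA_108 : allL (frChk1 repA c495 c506 c330 t8A dtA topM) bA_108 = true := by decide +kernel
theorem gA_109 : allL (frChk1 repA c495 c506 c330 t8A dtA topM) bA_109 = true := by decide +kernel
theorem gA_110 : allL (frChk1 repA c495 c506 c330 t8A dtA topM) bA_110 = true := by decide +kernel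
theorem gA_111 : allL (frChk1 repA c495 c506 c330 t8A dtA topM) bA_111 = true := by decide +kernel
theorem gA_112 : allL (frChk1 repA c495 c506 c330 t8A dtA topM) bA_112 = true := by decide +kernel
theorem gA_113 : allL (frChk1 repA c495 c506 c330 t8A dtA topM) bA_113 = true := by decide +kernel
theorem gA_114 : allL (frChk1 repA c495 c506 c330 t8A dtA topM) bA_114 = true := by decide +kernel
theorem gA_115 : allL (frChk1 repA c495 c506 c330 t8A dtA topM) bA_115 = true := by decide +kernel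
theorem gA_116 : allL (frChk1 repA c495 c506 c330 t8A dtA topM) bA_116 = true := by decide +kernel
theorem gA_117 : allL (frChk1 repA c495 c506 c330 t8A dtA topM) bA_117 = true := by decide +kernel
theorem gA_118 : allL (frChk1 repA c495 c506 c330 t8A dtA topM) bA_118 = true := by decide +kernel
theorem gA_119 : allL (frChk1 repA c495 c506 c330 t8A dtA topM) bA_119 = true := by decide +kernel
theorem gA_120 : allL (frChk1 repA c495 c506 c330 t8A dtA topM) bA_120 = true := by decide +kernel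
theorem gA_121 : allL (frChk1 repA c495 c506 c330 t8A dtA topM) bA_121 = true := by decide +kernel
theorem gA_122 : allL (frChk1 repA c495 c506 c330 t8A dtA topM) bA_122 = true := by decide +kernel
theorem gA_123 : allL (frChk1 repA c495 c506 c330 t8A dtA topM) bA_123 = true := by decide +kernel
theorem gA_124 : allL (frChk1 repA c495 c506 c330 t8A dtA topM) bA_124 = true := by decide +kernel
theorem gA_125 : allL (frChk1 repA c495 c506 c330 t8A dtA topM) bA_125 = true := by decide +kernel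
theorem gA_126 : allL (frChk1 repA c495 c506 c330 t8A dtA topM) bA_126 = true := by decide +kernel
theorem gA_127 : allL (frChk1 repA c495 c506 c330 t8A dtA topM) bA_127 = true := by decide +kernel
theorem gA_128 : allL (frChk1 repA c495 c506 c330 t8A dtA topM) bA_128 = true := by decide +kernel
theorem gA_129 : allL (frChk1 repA c495 c506 c330 t8A dtA topM) bA_129 = true := by decide +kernel
theorem gA_130 : allL (frChk1 repA c495 c506 c330 t8A dtA topM) bA_130 = true := by decide +kernel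
theorem gA_131 : allL (frChk1 repA c495 c506 c330 t8A dtA topM) bA_131 = true := by decide +kernel
theorem gA_132 : allL (frChk1 repA c495 c506 c330 t8A dtA topM) bA_132 = true := by decide +kernel
theorem gA_133 : allL (frChk1 repA c495 c506 c330 t8A dtA topM) bA_133 = true := by decide +kernel
theorem gA_134 : allL (frChk1 repA c495 c506 c330 t8A dtA topM) bA_134 = true := by decide +kernel
theorem gA_135 : allL (frChk1 repA c495 c506 c330 t8A dtA topM) bA_135 = true := by decide +kernel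
theorem gA_136 : allL (frChk1 repA c495 c506 c330 t8A dtA topM) bA_136 = true := by decide +kernel
theorem gA_137 : allL (frChk1 repA c495 c506 c330 t8A dtA topM) bA_137 = true := by decide +kernel
theorem gA_138 : allL (frChk1 repA c495 c506 c330 t8A dtA topM) bA_138 = true := by decide +kernel
theorem gA_139 : allL (frChk1 repA c495 c506 c330 t8A dtA topM) bA_139 = true := by decide +kernel
theorem gA_140 : allL (frChk1 repA c495 c506 c330 t8A dtA topM) bA_140 = true := by decide +kernel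
theorem gA_141 : allL (frChk1 repA c495 c506 c330 t8A dtA topM) bA_141 = true := by decide +kernel
theorem gA_142 : allL (frChk1 repA c495 c506 c330 t8A dtA topM) bA_142 = true := by decide +kernel
theorem gA_143 : allL (frChk1 repA c495 c506 c330 t8A dtA topM) bA_143 = true := by decide +kernel
theorem gA_144 : allL (frChk1 repA c495 c506 c330 t8A dtA topM) bA_144 = true := by decide +kernel
theorem gA_145 : allL (frChk1 repA c495 c506 c330 t8A dtA topM) bA_145 = true := by decide +kernel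
theorem gA_146 : allL (frChk1 repA c495 c506 c330 t8A dtA topM) bA_146 = true := by decide +kernel
theorem gA_147 : allL (frChk1 repA c495 c506 c330 t8A dtA topM) bA_147 = true := by decide +kernel
theorem gA_148 : allL (frChk1 repA c495 c506 c330 t8A dtA topM) bA_148 = true := by decide +kernel
theorem gA_149 : allL (frChk1 repA c495 c506 c330 t8A dtA topM) bA_149 = true := by decide +kernel
theorem gA_150 : allL (frChk1 repA c495 c506 c330 t8A dtA topM) bA_150 = true := by decide +kernel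
theorem gA_151 : allL (frChk1 repA c495 c506 c330 t8A dtA topM) bA_151 = true := by decide +kernel
theorem gA_152 : allL (frChk1 repA c495 c506 c330 t8A dtA topM) bA_152 = true := by decide +kernel
theorem gA_153 : allL (frChk1 repA c495 c506 c330 t8A dtA topM) bA_153 = true := by decide +kernel
theorem gA_154 : allL (frChk1 repA c495 c506 c330 t8A dtA topM) bA_154 = true := by decide +kernel
theorem gA_155 : allL (frChk1 repA c495 c506 c330 t8A dtA topM) bA_155 = true := by decide +kernel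
theorem gA_156 : allL (frChk1 repA c495 c506 c330 t8A dtA topM) bA_156 = true := by decide +kernel
theorem gA_157 : allL (frChk1 repA c495 c506 c330 t8A dtA topM) bA_157 = true := by decide +kernel
theorem gA_158 : allL (frChk1 repA c495 c506 c330 t8A dtA topM) bA_158 = true := by decide +kernel
theorem gA_159 : allL (frChk1 repA c495 c506 c330 t8A dtA topM) bA_159 = true := by decide +kernel
theorem gA_160 : allL (frChk1 repA c495 c506 c330 t8A dtA topM) bA_160 = true := by decide +kernel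
theorem gA_161 : allL (frChk1 repA c495 c506 c330 t8A dtA topM) bA_161 = true := by decide +kernel
theorem gA_162 : allL (frChk1 repA c495 c506 c330 t8A dtA topM) bA_162 = true := by decide +kernel
theorem gA_163 : allL (frChk1 repA c495 c506 c330 t8A dtA topM) bA_163 = true := by decide +kernel
theorem gA_164 : allL (frChk1 repA c495 c506 c330 t8A dtA topM) bA_164 = true := by decide +kernel
theorem gA_165 : allL (frChk1 repA c495 c506 c330 t8A dtA topM) bA_165 = true := by decide +kernel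
theorem gA_166 : allL (frChk1 repA c495 c506 c330 t8A dtA topM) bA_166 = true := by decide +kernel
theorem gA_167 : allL (frChk1 repA c495 c506 c330 t8A dtA topM) bA_167 = true := by decide +kernel
theorem gA_168 : allL (frChk1 repA c495 c506 c330 t8A dtA topM) bA_168 = true := by decide +kernel
theorem gA_169 : allL (frChk1 repA c495 c506 c330 t8A dtA topM) bA_169 = true := by decide +kernel
theorem gA_170 : allL (frChk1 repA c495 c506 c330 t8A dtA topM) bA_170 = true := by decide +kernel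
theorem gA_171 : allL (frChk1 repA c495 c506 c330 t8A dtA topM) bA_171 = true := by decide +kernel
theorem gA_172 : allL (frChk1 repA c495 c506 c330 t8A dtA topM) bA_172 = true := by decide +kernel
theorem gA_173 : allL (frChk1 repA c495 c506 c330 t8A dtA topM) bA_173 = true := by decide +kernel
theorem gA_174 : allL (frChk1 repA c495 c506 c330 t8A dtA topM) bA_174 = true := by decide +kernel
theorem gA_175 : allL (frChk1 repA c495 c506 c330 t8A dtA topM) bA_175 = true := by decide +kernel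
theorem gA_176 : allL (frChk1 repA c495 c506 c330 t8A dtA topM) bA_176 = true := by decide +kernel
theorem gA_177 : allL (frChk1 repA c495 c506 c330 t8A dtA topM) bA_177 = true := by decide +kernel
theorem gA_178 : allL (frChk1 repA c495 c506 c330 t8A dtA topM) bA_178 = true := by decide +kernel
theorem gA_179 : allL (frChk1 repA c495 c506 c330 t8A dtA topM) bA_179 = true := by decide +kernel
theorem gA_180 : allL (frChk1 repA c495 c506 c330 t8A dtA topM) bA_180 = true := by decide +kernel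
theorem gA_181 : allL (frChk1 repA c495 c506 c330 t8A dtA topM) bA_181 = true := by decide +kernel
theorem gA_182 : allL (frChk1 repA c495 c506 c330 t8A dtA topM) bA_182 = true := by decide +kernel
theorem gA_183 : allL (frChk1 repA c495 c506 c330 t8A dtA topM) bA_183 = true := by decide +kernel
theorem gA_184 : allL (frChk1 repA c495 c506 c330 t8A dtA topM) bA_184 = true := by decide +kernel
theorem gA_185 : allL (frChk1 repA c495 c506 c330 t8A dtA topM) bA_185 = true := by decide +kernel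
theorem gA_186 : allL (frChk1 repA c495 c506 c330 t8A dtA topM) bA_186 = true := by decide +kernel
theorem gA_187 : allL (frChk1 repA c495 c506 c330 t8A dtA topM) bA_187 = true := by decide +kernel
theorem gA_188 : allL (frChk1 repA c495 c506 c330 t8A dtA topM) bA_188 = true := by decide +kernel
theorem gA_189 : allL (frChk1 repA c495 c506 c330 t8A dtA topM) bA_189 = true := by decide +kernel
theorem gA_190 : allL (frChk1 repA c495 c506 c330 t8A dtA topM) bA_190 = true := by decide +kernel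
theorem gA_191 : allL (frChk1 repA c495 c506 c330 t8A dtA topM) bA_191 = true := by decide +kernel
theorem gA_192 : allL (frChk1 repA c495 c506 c330 t8A dtA topM) bA_192 = true := by decide +kernel
theorem gA_193 : allL (frChk1 repA c495 c506 c330 t8A dtA topM) bA_193 = true := by decide +kernel
theorem gA_194 : allL (frChk1 repA c495 c506 c330 t8A dtA topM) bA_194 = true := by decide +kernel
theorem gA_195 : allL (frChk1 repA c495 c506 c330 t8A dtA topM) bA_195 = true := by decide +kernel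
theorem gA_196 : allL (frChk1 repA c495 c506 c330 t8A dtA topM) bA_196 = true := by decide +kernel
theorem gA_197 : allL (frChk1 repA c495 c506 c330 t8A dtA topM) bA_197 = true := by decide +kernel
theorem gA_198 : allL (frChk1 repA c495 c506 c330 t8A dtA topM) bA_198 = true := by decide +kernel
theorem fkA_0 : ∀ f ∈ bA_0, FrOK repA f :=
  frChk_sound t8A_eq dtA_eq c495_eq c506_eq c330_eq rfl gA_0
theorem fkA_1 : ∀ f ∈ bA_1, FrOK repA f :=
  frChk_sound t8A_eq dtA_eq c495_eq c506_eq c330_eq rfl gA_1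
theorem fkA_2 : ∀ f ∈ bA_2, FrOK repA f :=
  frChk_sound t8A_eq dtA_eq c495_eq c506_eq c330_eq rfl gA_2
theorem fkA_3 : ∀ f ∈ bA_3, FrOK repA f :=
  frChk_sound t8A_eq dtA_eq c495_eq c506_eq c330_eq rfl gA_3
theorem fkA_4 : ∀ f ∈ bA_4, FrOK repA f :=
  frChk_sound t8A_eq dtA_eq c495_eq c506_eq c330_eq rfl gA_4
theorem fkA_5 : ∀ f ∈ bA_5, FrOK repA f :=
  frChk_sound t8A_eq dtA_eq c495_eq c506_eq c330_eq rfl gA_5
theorem fkA_6 : ∀ f ∈ bA_6, FrOK repA f :=
  frChk_sound t8A_eq dtA_eq c495_eq c506_eq c330_eq rfl gA_6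
theorem fkA_7 : ∀ f ∈ bA_7, FrOK repA f :=
  frChk_sound t8A_eq dtA_eq c495_eq c506_eq c330_eq rfl gA_7
theorem fkA_8 : ∀ f ∈ bA_8, FrOK repA f :=
  frChk_sound t8A_eq dtA_eq c495_eq c506_eq c330_eq rfl gA_8
theorem fkA_9 : ∀ f ∈ bA_9, FrOK repA f :=
  frChk_sound t8A_eq dtA_eq c495_eq c506_eq c330_eq rfl gA_9
theorem fkA_10 : ∀ f ∈ bA_10, FrOK repA f :=
  frChk_sound t8A_eq dtA_eq c495_eq c506_eq c330_eq rfl gA_10
theorem fkA_11 : ∀ f ∈ bA_11, FrOK repA f :=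
  frChk_sound t8A_eq dtA_eq c495_eq c506_eq c330_eq rfl gA_11
theorem fkA_12 : ∀ f ∈ bA_12, FrOK repA f :=
  frChk_sound t8A_eq dtA_eq c495_eq c506_eq c330_eq rfl gA_12
theorem fkA_13 : ∀ f ∈ bA_13, FrOK repA f :=
  frChk_sound t8A_eq dtA_eq c495_eq c506_eq c330_eq rfl gA_13
theorem fkA_14 : ∀ f ∈ bA_14, FrOK repA f :=
  frChk_sound t8A_eq dtA_eq c495_eq c506_eq c330_eq rfl gA_14
theorem fkA_15 : ∀ f ∈ bA_15, FrOK repA f :=
  frChk_sound t8A_eq dtA_eq c495_eq c506_eq c330_eq rfl gA_15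
theorem fkA_16 : ∀ f ∈ bA_16, FrOK repA f :=
  frChk_sound t8A_eq dtA_eq c495_eq c506_eq c330_eq rfl gA_16
theorem fkA_17 : ∀ f ∈ bA_17, FrOK repA f :=
  frChk_sound t8A_eq dtA_eq c495_eq c506_eq c330_eq rfl gA_17
theorem fkA_18 : ∀ f ∈ bA_18, FrOK repA f :=
  frChk_sound t8A_eq dtA_eq c495_eq c506_eq c330_eq rfl gA_18
theorem fkA_19 : ∀ f ∈ bA_19, FrOK repA f :=
  frChk_sound t8A_eq dtA_eq c495_eq c506_eq c330_eq rfl gA_19
theorem fkA_20 : ∀ f ∈ bA_20, FrOK repA f :=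
  frChk_sound t8A_eq dtA_eq c495_eq c506_eq c330_eq rfl gA_20
theorem fkA_21 : ∀ f ∈ bA_21, FrOK repA f :=
  frChk_sound t8A_eq dtA_eq c495_eq c506_eq c330_eq rfl gA_21
theorem fkA_22 : ∀ f ∈ bA_22, FrOK repA f :=
  frChk_sound t8A_eq dtA_eq c495_eq c506_eq c330_eq rfl gA_22
theorem fkA_23 : ∀ f ∈ bA_23, FrOK repA f :=
  frChk_sound t8A_eq dtA_eq c495_eq c506_eq c330_eq rfl gA_23
theorem fkA_24 : ∀ f ∈ bA_24, FrOK repA f :=
  frChk_sound t8A_eq dtA_eq c495_eq c506_eq c330_eq rfl gA_24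
theorem fkA_25 : ∀ f ∈ bA_25, FrOK repA f :=
  frChk_sound t8A_eq dtA_eq c495_eq c506_eq c330_eq rfl gA_25
theorem fkA_26 : ∀ f ∈ bA_26, FrOK repA f :=
  frChk_sound t8A_eq dtA_eq c495_eq c506_eq c330_eq rfl gA_26
theorem fkA_27 : ∀ f ∈ bA_27, FrOK repA f :=
  frChk_sound t8A_eq dtA_eq c495_eq c506_eq c330_eq rfl gA_27
theorem fkA_28 : ∀ f ∈ bA_28, FrOK repA f :=
  frChk_sound t8A_eq dtA_eq c495_eq c506_eq c330_eq rfl gA_28
theorem fkA_29 : ∀ f ∈ bA_29, FrOK repA f :=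
  frChk_sound t8A_eq dtA_eq c495_eq c506_eq c330_eq rfl gA_29
theorem fkA_30 : ∀ f ∈ bA_30, FrOK repA f :=
  frChk_sound t8A_eq dtA_eq c495_eq c506_eq c330_eq rfl gA_30
theorem fkA_31 : ∀ f ∈ bA_31, FrOK repA f :=
  frChk_sound t8A_eq dtA_eq c495_eq c506_eq c330_eq rfl gA_31
theorem fkA_32 : ∀ f ∈ bA_32, FrOK repA f :=
  frChk_sound t8A_eq dtA_eq c495_eq c506_eq c330_eq rfl gA_32
theorem fkA_33 : ∀ f ∈ bA_33, FrOK repA f :=
  frChk_sound t8A_eq dtA_eq c495_eq c506_eq c330_eq rfl gA_33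
theorem fkA_34 : ∀ f ∈ bA_34, FrOK repA f :=
  frChk_sound t8A_eq dtA_eq c495_eq c506_eq c330_eq rfl gA_34
theorem fkA_35 : ∀ f ∈ bA_35, FrOK repA f :=
  frChk_sound t8A_eq dtA_eq c495_eq c506_eq c330_eq rfl gA_35
theorem fkA_36 : ∀ f ∈ bA_36, FrOK repA f :=
  frChk_sound t8A_eq dtA_eq c495_eq c506_eq c330_eq rfl gA_36
theorem fkA_37 : ∀ f ∈ bA_37, FrOK repA f :=
  frChk_sound t8A_eq dtA_eq c495_eq c506_eq c330_eq rfl gA_37
theorem fkA_38 : ∀ f ∈ bA_38, FrOK repA f :=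
  frChk_sound t8A_eq dtA_eq c495_eq c506_eq c330_eq rfl gA_38
theorem fkA_39 : ∀ f ∈ bA_39, FrOK repA f :=
  frChk_sound t8A_eq dtA_eq c495_eq c506_eq c330_eq rfl gA_39
theorem fkA_40 : ∀ f ∈ bA_40, FrOK repA f :=
  frChk_sound t8A_eq dtA_eq c495_eq c506_eq c330_eq rfl gA_40
theorem fkA_41 : ∀ f ∈ bA_41, FrOK repA f :=
  frChk_sound t8A_eq dtA_eq c495_eq c506_eq c330_eq rfl gA_41
theorem fkA_42 : ∀ f ∈ bA_42, FrOK repA f :=
  frChk_sound t8A_eq dtA_eq c495_eq c506_eq c330_eq rfl gA_42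
theorem fkA_43 : ∀ f ∈ bA_43, FrOK repA f :=
  frChk_sound t8A_eq dtA_eq c495_eq c506_eq c330_eq rfl gA_43
theorem fkA_44 : ∀ f ∈ bA_44, FrOK repA f :=
  frChk_sound t8A_eq dtA_eq c495_eq c506_eq c330_eq rfl gA_44
theorem fkA_45 : ∀ f ∈ bA_45, FrOK repA f :=
  frChk_sound t8A_eq dtA_eq c495_eq c506_eq c330_eq rfl gA_45
theorem fkA_46 : ∀ f ∈ bA_46, FrOK repA f :=
  frChk_sound t8A_eq dtA_eq c495_eq c506_eq c330_eq rfl gA_46
theorem fkA_47 : ∀ f ∈ bA_47, FrOK repA f :=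
  frChk_sound t8A_eq dtA_eq c495_eq c506_eq c330_eq rfl gA_47
theorem fkA_48 : ∀ f ∈ bA_48, FrOK repA f :=
  frChk_sound t8A_eq dtA_eq c495_eq c506_eq c330_eq rfl gA_48
theorem fkA_49 : ∀ f ∈ bA_49, FrOK repA f :=
  frChk_sound t8A_eq dtA_eq c495_eq c506_eq c330_eq rfl gA_49
theorem fkA_50 : ∀ f ∈ bA_50, FrOK repA f :=
  frChk_sound t8A_eq dtA_eq c495_eq c506_eq c330_eq rfl gA_50
theorem fkA_51 : ∀ f ∈ bA_51, FrOK repA f :=
  frChk_sound t8A_eq dtA_eq c495_eq c506_eq c330_eq rfl gA_51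
theorem fkA_52 : ∀ f ∈ bA_52, FrOK repA f :=
  frChk_sound t8A_eq dtA_eq c495_eq c506_eq c330_eq rfl gA_52
theorem fkA_53 : ∀ f ∈ bA_53, FrOK repA f :=
  frChk_sound t8A_eq dtA_eq c495_eq c506_eq c330_eq rfl gA_53
theorem fkA_54 : ∀ f ∈ bA_54, FrOK repA f :=
  frChk_sound t8A_eq dtA_eq c495_eq c506_eq c330_eq rfl gA_54
theorem fkA_55 : ∀ f ∈ bA_55, FrOK repA f :=
  frChk_sound t8A_eq dtA_eq c495_eq c506_eq c330_eq rfl gA_55
theorem fkA_56 : ∀ f ∈ bA_56, FrOK repA f :=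
  frChk_sound t8A_eq dtA_eq c495_eq c506_eq c330_eq rfl gA_56
theorem fkA_57 : ∀ f ∈ bA_57, FrOK repA f :=
  frChk_sound t8A_eq dtA_eq c495_eq c506_eq c330_eq rfl gA_57
theorem fkA_58 : ∀ f ∈ bA_58, FrOK repA f :=
  frChk_sound t8A_eq dtA_eq c495_eq c506_eq c330_eq rfl gA_58
theorem fkA_59 : ∀ f ∈ bA_59, FrOK repA f :=
  frChk_sound t8A_eq dtA_eq c495_eq c506_eq c330_eq rfl gA_59
theorem fkA_60 : ∀ f ∈ bA_60, FrOK repA f :=
  frChk_sound t8A_eq dtA_eq c495_eq c506_eq c330_eq rfl gA_60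
theorem fkA_61 : ∀ f ∈ bA_61, FrOK repA f :=
  frChk_sound t8A_eq dtA_eq c495_eq c506_eq c330_eq rfl gA_61
theorem fkA_62 : ∀ f ∈ bA_62, FrOK repA f :=
  frChk_sound t8A_eq dtA_eq c495_eq c506_eq c330_eq rfl gA_62
theorem fkA_63 : ∀ f ∈ bA_63, FrOK repA f :=
  frChk_sound t8A_eq dtA_eq c495_eq c506_eq c330_eq rfl gA_63
theorem fkA_64 : ∀ f ∈ bA_64, FrOK repA f :=
  frChk_sound t8A_eq dtA_eq c495_eq c506_eq c330_eq rfl gA_64
theorem fkA_65 : ∀ f ∈ bA_65, FrOK repA f :=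
  frChk_sound t8A_eq dtA_eq c495_eq c506_eq c330_eq rfl gA_65
theorem fkA_66 : ∀ f ∈ bA_66, FrOK repA f :=
  frChk_sound t8A_eq dtA_eq c495_eq c506_eq c330_eq rfl gA_66
theorem fkA_67 : ∀ f ∈ bA_67, FrOK repA f :=
  frChk_sound t8A_eq dtA_eq c495_eq c506_eq c330_eq rfl gA_67
theorem fkA_68 : ∀ f ∈ bA_68, FrOK repA f :=
  frChk_sound t8A_eq dtA_eq c495_eq c506_eq c330_eq rfl gA_68
theorem fkA_69 : ∀ f ∈ bA_69, FrOK repA f :=
  frChk_sound t8A_eq dtA_eq c495_eq c506_eq c330_eq rfl gA_69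
theorem fkA_70 : ∀ f ∈ bA_70, FrOK repA f :=
  frChk_sound t8A_eq dtA_eq c495_eq c506_eq c330_eq rfl gA_70
theorem fkA_71 : ∀ f ∈ bA_71, FrOK repA f :=
  frChk_sound t8A_eq dtA_eq c495_eq c506_eq c330_eq rfl gA_71
theorem fkA_72 : ∀ f ∈ bA_72, FrOK repA f :=
  frChk_sound t8A_eq dtA_eq c495_eq c506_eq c330_eq rfl gA_72
theorem fkA_73 : ∀ f ∈ bA_73, FrOK repA f :=
  frChk_sound t8A_eq dtA_eq c495_eq c506_eq c330_eq rfl gA_73
theorem fkA_74 : ∀ f ∈ bA_74, FrOK repA f :=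
  frChk_sound t8A_eq dtA_eq c495_eq c506_eq c330_eq rfl gA_74
theorem fkA_75 : ∀ f ∈ bA_75, FrOK repA f :=
  frChk_sound t8A_eq dtA_eq c495_eq c506_eq c330_eq rfl gA_75
theorem fkA_76 : ∀ f ∈ bA_76, FrOK repA f :=
  frChk_sound t8A_eq dtA_eq c495_eq c506_eq c330_eq rfl gA_76
theorem fkA_77 : ∀ f ∈ bA_77, FrOK repA f :=
  frChk_sound t8A_eq dtA_eq c495_eq c506_eq c330_eq rfl gA_77
theorem fkA_78 : ∀ f ∈ bA_78, FrOK repA f :=
  frChk_sound t8A_eq dtA_eq c495_eq c506_eq c330_eq rfl gA_78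
theorem fkA_79 : ∀ f ∈ bA_79, FrOK repA f :=
  frChk_sound t8A_eq dtA_eq c495_eq c506_eq c330_eq rfl gA_79
theorem fkA_80 : ∀ f ∈ bA_80, FrOK repA f :=
  frChk_sound t8A_eq dtA_eq c495_eq c506_eq c330_eq rfl gA_80
theorem fkA_81 : ∀ f ∈ bA_81, FrOK repA f :=
  frChk_sound t8A_eq dtA_eq c495_eq c506_eq c330_eq rfl gA_81
theorem fkA_82 : ∀ f ∈ bA_82, FrOK repA f :=
  frChk_sound t8A_eq dtA_eq c495_eq c506_eq c330_eq rfl gA_82
theorem fkA_83 : ∀ f ∈ bA_83, FrOK repA f :=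
  frChk_sound t8A_eq dtA_eq c495_eq c506_eq c330_eq rfl gA_83
theorem fkA_84 : ∀ f ∈ bA_84, FrOK repA f :=
  frChk_sound t8A_eq dtA_eq c495_eq c506_eq c330_eq rfl gA_84
theorem fkA_85 : ∀ f ∈ bA_85, FrOK repA f :=
  frChk_sound t8A_eq dtA_eq c495_eq c506_eq c330_eq rfl gA_85
theorem fkA_86 : ∀ f ∈ bA_86, FrOK repA f :=
  frChk_sound t8A_eq dtA_eq c495_eq c506_eq c330_eq rfl gA_86
theorem fkA_87 : ∀ f ∈ bA_87, FrOK repA f :=
  frChk_sound t8A_eq dtA_eq c495_eq c506_eq c330_eq rfl gA_87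
theorem fkA_88 : ∀ f ∈ bA_88, FrOK repA f :=
  frChk_sound t8A_eq dtA_eq c495_eq c506_eq c330_eq rfl gA_88
theorem fkA_89 : ∀ f ∈ bA_89, FrOK repA f :=
  frChk_sound t8A_eq dtA_eq c495_eq c506_eq c330_eq rfl gA_89
theorem fkA_90 : ∀ f ∈ bA_90, FrOK repA f :=
  frChk_sound t8A_eq dtA_eq c495_eq c506_eq c330_eq rfl gA_90
theorem fkA_91 : ∀ f ∈ bA_91, FrOK repA f :=
  frChk_sound t8A_eq dtA_eq c495_eq c506_eq c330_eq rfl gA_91
theorem fkA_92 : ∀ f ∈ bA_92, FrOK repA f :=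
  frChk_sound t8A_eq dtA_eq c495_eq c506_eq c330_eq rfl gA_92
theorem fkA_93 : ∀ f ∈ bA_93, FrOK repA f :=
  frChk_sound t8A_eq dtA_eq c495_eq c506_eq c330_eq rfl gA_93
theorem fkA_94 : ∀ f ∈ bA_94, FrOK repA f :=
  frChk_sound t8A_eq dtA_eq c495_eq c506_eq c330_eq rfl gA_94
theorem fkA_95 : ∀ f ∈ bA_95, FrOK repA f :=
  frChk_sound t8A_eq dtA_eq c495_eq c506_eq c330_eq rfl gA_95
theorem fkA_96 : ∀ f ∈ bA_96, FrOK repA f :=
  frChk_sound t8A_eq dtA_eq c495_eq c506_eq c330_eq rfl gA_96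
theorem fkA_97 : ∀ f ∈ bA_97, FrOK repA f :=
  frChk_sound t8A_eq dtA_eq c495_eq c506_eq c330_eq rfl gA_97
theorem fkA_98 : ∀ f ∈ bA_98, FrOK repA f :=
  frChk_sound t8A_eq dtA_eq c495_eq c506_eq c330_eq rfl gA_98
theorem fkA_99 : ∀ f ∈ bA_99, FrOK repA f :=
  frChk_sound t8A_eq dtA_eq c495_eq c506_eq c330_eq rfl gA_99
theorem fkA_100 : ∀ f ∈ bA_100, FrOK repA f :=
  frChk_sound t8A_eq dtA_eq c495_eq c506_eq c330_eq rfl gA_100
theorem fkA_101 : ∀ f ∈ bA_101, FrOK repA f :=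
  frChk_sound t8A_eq dtA_eq c495_eq c506_eq c330_eq rfl gA_101
theorem fkA_102 : ∀ f ∈ bA_102, FrOK repA f :=
  frChk_sound t8A_eq dtA_eq c495_eq c506_eq c330_eq rfl gA_102
theorem fkA_103 : ∀ f ∈ bA_103, FrOK repA f :=
  frChk_sound t8A_eq dtA_eq c495_eq c506_eq c330_eq rfl gA_103
theorem fkA_104 : ∀ f ∈ bA_104, FrOK repA f :=
  frChk_sound t8A_eq dtA_eq c495_eq c506_eq c330_eq rfl gA_104
theorem fkA_105 : ∀ f ∈ bA_105, FrOK repA f :=
  frChk_sound t8A_eq dtA_eq c495_eq c506_eq c330_eq rfl gA_105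
theorem fkA_106 : ∀ f ∈ bA_106, FrOK repA f :=
  frChk_sound t8A_eq dtA_eq c495_eq c506_eq c330_eq rfl gA_106
theorem fkA_107 : ∀ f ∈ bA_107, FrOK repA f :=
  frChk_sound t8A_eq dtA_eq c495_eq c506_eq c330_eq rfl gA_107
theorem fkA_108 : ∀ f ∈ bA_108, FrOK repA f :=
  frChk_sound t8A_eq dtA_eq c495_eq c506_eq c330_eq rfl gA_108
theorem fkA_109 : ∀ f ∈ bA_109, FrOK repA f :=
  frChk_sound t8A_eq dtA_eq c495_eq c506_eq c330_eq rfl gA_109
theorem fkA_110 : ∀ f ∈ bA_110, FrOK repA f :=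
  frChk_sound t8A_eq dtA_eq c495_eq c506_eq c330_eq rfl gA_110
theorem fkA_111 : ∀ f ∈ bA_111, FrOK repA f :=
  frChk_sound t8A_eq dtA_eq c495_eq c506_eq c330_eq rfl gA_111
theorem fkA_112 : ∀ f ∈ bA_112, FrOK repA f :=
  frChk_sound t8A_eq dtA_eq c495_eq c506_eq c330_eq rfl gA_112
theorem fkA_113 : ∀ f ∈ bA_113, FrOK repA f :=
  frChk_sound t8A_eq dtA_eq c495_eq c506_eq c330_eq rfl gA_113
theorem fkA_114 : ∀ f ∈ bA_114, FrOK repA f :=
  frChk_sound t8A_eq dtA_eq c495_eq c506_eq c330_eq rfl gA_114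
theorem fkA_115 : ∀ f ∈ bA_115, FrOK repA f :=
  frChk_sound t8A_eq dtA_eq c495_eq c506_eq c330_eq rfl gA_115
theorem fkA_116 : ∀ f ∈ bA_116, FrOK repA f :=
  frChk_sound t8A_eq dtA_eq c495_eq c506_eq c330_eq rfl gA_116
theorem fkA_117 : ∀ f ∈ bA_117, FrOK repA f :=
  frChk_sound t8A_eq dtA_eq c495_eq c506_eq c330_eq rfl gA_117
theorem fkA_118 : ∀ f ∈ bA_118, FrOK repA f :=
  frChk_sound t8A_eq dtA_eq c495_eq c506_eq c330_eq rfl gA_118
theorem fkA_119 : ∀ f ∈ bA_119, FrOK repA f :=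
  frChk_sound t8A_eq dtA_eq c495_eq c506_eq c330_eq rfl gA_119
theorem fkA_120 : ∀ f ∈ bA_120, FrOK repA f :=
  frChk_sound t8A_eq dtA_eq c495_eq c506_eq c330_eq rfl gA_120
theorem fkA_121 : ∀ f ∈ bA_121, FrOK repA f :=
  frChk_sound t8A_eq dtA_eq c495_eq c506_eq c330_eq rfl gA_121
theorem fkA_122 : ∀ f ∈ bA_122, FrOK repA f :=
  frChk_sound t8A_eq dtA_eq c495_eq c506_eq c330_eq rfl gA_122
theorem fkA_123 : ∀ f ∈ bA_123, FrOK repA f :=
  frChk_sound t8A_eq dtA_eq c495_eq c506_eq c330_eq rfl gA_123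
theorem fkA_124 : ∀ f ∈ bA_124, FrOK repA f :=
  frChk_sound t8A_eq dtA_eq c495_eq c506_eq c330_eq rfl gA_124
theorem fkA_125 : ∀ f ∈ bA_125, FrOK repA f :=
  frChk_sound t8A_eq dtA_eq c495_eq c506_eq c330_eq rfl gA_125
theorem fkA_126 : ∀ f ∈ bA_126, FrOK repA f :=
  frChk_sound t8A_eq dtA_eq c495_eq c506_eq c330_eq rfl gA_126
theorem fkA_127 : ∀ f ∈ bA_127, FrOK repA f :=
  frChk_sound t8A_eq dtA_eq c495_eq c506_eq c330_eq rfl gA_127
theorem fkA_128 : ∀ f ∈ bA_128, FrOK repA f :=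
  frChk_sound t8A_eq dtA_eq c495_eq c506_eq c330_eq rfl gA_128
theorem fkA_129 : ∀ f ∈ bA_129, FrOK repA f :=
  frChk_sound t8A_eq dtA_eq c495_eq c506_eq c330_eq rfl gA_129
theorem fkA_130 : ∀ f ∈ bA_130, FrOK repA f :=
  frChk_sound t8A_eq dtA_eq c495_eq c506_eq c330_eq rfl gA_130
theorem fkA_131 : ∀ f ∈ bA_131, FrOK repA f :=
  frChk_sound t8A_eq dtA_eq c495_eq c506_eq c330_eq rfl gA_131
theorem fkA_132 : ∀ f ∈ bA_132, FrOK repA f :=
  frChk_sound t8A_eq dtA_eq c495_eq c506_eq c330_eq rfl gA_132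
theorem fkA_133 : ∀ f ∈ bA_133, FrOK repA f :=
  frChk_sound t8A_eq dtA_eq c495_eq c506_eq c330_eq rfl gA_133
theorem fkA_134 : ∀ f ∈ bA_134, FrOK repA f :=
  frChk_sound t8A_eq dtA_eq c495_eq c506_eq c330_eq rfl gA_134
theorem fkA_135 : ∀ f ∈ bA_135, FrOK repA f :=
  frChk_sound t8A_eq dtA_eq c495_eq c506_eq c330_eq rfl gA_135
theorem fkA_136 : ∀ f ∈ bA_136, FrOK repA f :=
  frChk_sound t8A_eq dtA_eq c495_eq c506_eq c330_eq rfl gA_136
theorem fkA_137 : ∀ f ∈ bA_137, FrOK repA f :=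
  frChk_sound t8A_eq dtA_eq c495_eq c506_eq c330_eq rfl gA_137
theorem fkA_138 : ∀ f ∈ bA_138, FrOK repA f :=
  frChk_sound t8A_eq dtA_eq c495_eq c506_eq c330_eq rfl gA_138
theorem fkA_139 : ∀ f ∈ bA_139, FrOK repA f :=
  frChk_sound t8A_eq dtA_eq c495_eq c506_eq c330_eq rfl gA_139
theorem fkA_140 : ∀ f ∈ bA_140, FrOK repA f :=
  frChk_sound t8A_eq dtA_eq c495_eq c506_eq c330_eq rfl gA_140
theorem fkA_141 : ∀ f ∈ bA_141, FrOK repA f :=
  frChk_sound t8A_eq dtA_eq c495_eq c506_eq c330_eq rfl gA_141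
theorem fkA_142 : ∀ f ∈ bA_142, FrOK repA f :=
  frChk_sound t8A_eq dtA_eq c495_eq c506_eq c330_eq rfl gA_142
theorem fkA_143 : ∀ f ∈ bA_143, FrOK repA f :=
  frChk_sound t8A_eq dtA_eq c495_eq c506_eq c330_eq rfl gA_143
theorem fkA_144 : ∀ f ∈ bA_144, FrOK repA f :=
  frChk_sound t8A_eq dtA_eq c495_eq c506_eq c330_eq rfl gA_144
theorem fkA_145 : ∀ f ∈ bA_145, FrOK repA f :=
  frChk_sound t8A_eq dtA_eq c495_eq c506_eq c330_eq rfl gA_145
theorem fkA_146 : ∀ f ∈ bA_146, FrOK repA f :=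
  frChk_sound t8A_eq dtA_eq c495_eq c506_eq c330_eq rfl gA_146
theorem fkA_147 : ∀ f ∈ bA_147, FrOK repA f :=
  frChk_sound t8A_eq dtA_eq c495_eq c506_eq c330_eq rfl gA_147
theorem fkA_148 : ∀ f ∈ bA_148, FrOK repA f :=
  frChk_sound t8A_eq dtA_eq c495_eq c506_eq c330_eq rfl gA_148
theorem fkA_149 : ∀ f ∈ bA_149, FrOK repA f :=
  frChk_sound t8A_eq dtA_eq c495_eq c506_eq c330_eq rfl gA_149
theorem fkA_150 : ∀ f ∈ bA_150, FrOK repA f :=
  frChk_sound t8A_eq dtA_eq c495_eq c506_eq c330_eq rfl gA_150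
theorem fkA_151 : ∀ f ∈ bA_151, FrOK repA f :=
  frChk_sound t8A_eq dtA_eq c495_eq c506_eq c330_eq rfl gA_151
theorem fkA_152 : ∀ f ∈ bA_152, FrOK repA f :=
  frChk_sound t8A_eq dtA_eq c495_eq c506_eq c330_eq rfl gA_152
theorem fkA_153 : ∀ f ∈ bA_153, FrOK repA f :=
  frChk_sound t8A_eq dtA_eq c495_eq c506_eq c330_eq rfl gA_153
theorem fkA_154 : ∀ f ∈ bA_154, FrOK repA f :=
  frChk_sound t8A_eq dtA_eq c495_eq c506_eq c330_eq rfl gA_154
theorem fkA_155 : ∀ f ∈ bA_155, FrOK repA f :=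
  frChk_sound t8A_eq dtA_eq c495_eq c506_eq c330_eq rfl gA_155
theorem fkA_156 : ∀ f ∈ bA_156, FrOK repA f :=
  frChk_sound t8A_eq dtA_eq c495_eq c506_eq c330_eq rfl gA_156
theorem fkA_157 : ∀ f ∈ bA_157, FrOK repA f :=
  frChk_sound t8A_eq dtA_eq c495_eq c506_eq c330_eq rfl gA_157
theorem fkA_158 : ∀ f ∈ bA_158, FrOK repA f :=
  frChk_sound t8A_eq dtA_eq c495_eq c506_eq c330_eq rfl gA_158
theorem fkA_159 : ∀ f ∈ bA_159, FrOK repA f :=
  frChk_sound t8A_eq dtA_eq c495_eq c506_eq c330_eq rfl gA_159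
theorem fkA_160 : ∀ f ∈ bA_160, FrOK repA f :=
  frChk_sound t8A_eq dtA_eq c495_eq c506_eq c330_eq rfl gA_160
theorem fkA_161 : ∀ f ∈ bA_161, FrOK repA f :=
  frChk_sound t8A_eq dtA_eq c495_eq c506_eq c330_eq rfl gA_161
theorem fkA_162 : ∀ f ∈ bA_162, FrOK repA f :=
  frChk_sound t8A_eq dtA_eq c495_eq c506_eq c330_eq rfl gA_162
theorem fkA_163 : ∀ f ∈ bA_163, FrOK repA f :=
  frChk_sound t8A_eq dtA_eq c495_eq c506_eq c330_eq rfl gA_163
theorem fkA_164 : ∀ f ∈ bA_164, FrOK repA f :=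
  frChk_sound t8A_eq dtA_eq c495_eq c506_eq c330_eq rfl gA_164
theorem fkA_165 : ∀ f ∈ bA_165, FrOK repA f :=
  frChk_sound t8A_eq dtA_eq c495_eq c506_eq c330_eq rfl gA_165
theorem fkA_166 : ∀ f ∈ bA_166, FrOK repA f :=
  frChk_sound t8A_eq dtA_eq c495_eq c506_eq c330_eq rfl gA_166
theorem fkA_167 : ∀ f ∈ bA_167, FrOK repA f :=
  frChk_sound t8A_eq dtA_eq c495_eq c506_eq c330_eq rfl gA_167
theorem fkA_168 : ∀ f ∈ bA_168, FrOK repA f :=
  frChk_sound t8A_eq dtA_eq c495_eq c506_eq c330_eq rfl gA_168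
theorem fkA_169 : ∀ f ∈ bA_169, FrOK repA f :=
  frChk_sound t8A_eq dtA_eq c495_eq c506_eq c330_eq rfl gA_169
theorem fkA_170 : ∀ f ∈ bA_170, FrOK repA f :=
  frChk_sound t8A_eq dtA_eq c495_eq c506_eq c330_eq rfl gA_170
theorem fkA_171 : ∀ f ∈ bA_171, FrOK repA f :=
  frChk_sound t8A_eq dtA_eq c495_eq c506_eq c330_eq rfl gA_171
theorem fkA_172 : ∀ f ∈ bA_172, FrOK repA f :=
  frChk_sound t8A_eq dtA_eq c495_eq c506_eq c330_eq rfl gA_172
theorem fkA_173 : ∀ f ∈ bA_173, FrOK repA f :=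
  frChk_sound t8A_eq dtA_eq c495_eq c506_eq c330_eq rfl gA_173
theorem fkA_174 : ∀ f ∈ bA_174, FrOK repA f :=
  frChk_sound t8A_eq dtA_eq c495_eq c506_eq c330_eq rfl gA_174
theorem fkA_175 : ∀ f ∈ bA_175, FrOK repA f :=
  frChk_sound t8A_eq dtA_eq c495_eq c506_eq c330_eq rfl gA_175
theorem fkA_176 : ∀ f ∈ bA_176, FrOK repA f :=
  frChk_sound t8A_eq dtA_eq c495_eq c506_eq c330_eq rfl gA_176
theorem fkA_177 : ∀ f ∈ bA_177, FrOK repA f :=
  frChk_sound t8A_eq dtA_eq c495_eq c506_eq c330_eq rfl gA_177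
theorem fkA_178 : ∀ f ∈ bA_178, FrOK repA f :=
  frChk_sound t8A_eq dtA_eq c495_eq c506_eq c330_eq rfl gA_178
theorem fkA_179 : ∀ f ∈ bA_179, FrOK repA f :=
  frChk_sound t8A_eq dtA_eq c495_eq c506_eq c330_eq rfl gA_179
theorem fkA_180 : ∀ f ∈ bA_180, FrOK repA f :=
  frChk_sound t8A_eq dtA_eq c495_eq c506_eq c330_eq rfl gA_180
theorem fkA_181 : ∀ f ∈ bA_181, FrOK repA f :=
  frChk_sound t8A_eq dtA_eq c495_eq c506_eq c330_eq rfl gA_181
theorem fkA_182 : ∀ f ∈ bA_182, FrOK repA f :=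
  frChk_sound t8A_eq dtA_eq c495_eq c506_eq c330_eq rfl gA_182
theorem fkA_183 : ∀ f ∈ bA_183, FrOK repA f :=
  frChk_sound t8A_eq dtA_eq c495_eq c506_eq c330_eq rfl gA_183
theorem fkA_184 : ∀ f ∈ bA_184, FrOK repA f :=
  frChk_sound t8A_eq dtA_eq c495_eq c506_eq c330_eq rfl gA_184
theorem fkA_185 : ∀ f ∈ bA_185, FrOK repA f :=
  frChk_sound t8A_eq dtA_eq c495_eq c506_eq c330_eq rfl gA_185
theorem fkA_186 : ∀ f ∈ bA_186, FrOK repA f :=
  frChk_sound t8A_eq dtA_eq c495_eq c506_eq c330_eq rfl gA_186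
theorem fkA_187 : ∀ f ∈ bA_187, FrOK repA f :=
  frChk_sound t8A_eq dtA_eq c495_eq c506_eq c330_eq rfl gA_187
theorem fkA_188 : ∀ f ∈ bA_188, FrOK repA f :=
  frChk_sound t8A_eq dtA_eq c495_eq c506_eq c330_eq rfl gA_188
theorem fkA_189 : ∀ f ∈ bA_189, FrOK repA f :=
  frChk_sound t8A_eq dtA_eq c495_eq c506_eq c330_eq rfl gA_189
theorem fkA_190 : ∀ f ∈ bA_190, FrOK repA f :=
  frChk_sound t8A_eq dtA_eq c495_eq c506_eq c330_eq rfl gA_190
theorem fkA_191 : ∀ f ∈ bA_191, FrOK repA f :=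
  frChk_sound t8A_eq dtA_eq c495_eq c506_eq c330_eq rfl gA_191
theorem fkA_192 : ∀ f ∈ bA_192, FrOK repA f :=
  frChk_sound t8A_eq dtA_eq c495_eq c506_eq c330_eq rfl gA_192
theorem fkA_193 : ∀ f ∈ bA_193, FrOK repA f :=
  frChk_sound t8A_eq dtA_eq c495_eq c506_eq c330_eq rfl gA_193
theorem fkA_194 : ∀ f ∈ bA_194, FrOK repA f :=
  frChk_sound t8A_eq dtA_eq c495_eq c506_eq c330_eq rfl gA_194
theorem fkA_195 : ∀ f ∈ bA_195, FrOK repA f :=
  frChk_sound t8A_eq dtA_eq c495_eq c506_eq c330_eq rfl gA_195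
theorem fkA_196 : ∀ f ∈ bA_196, FrOK repA f :=
  frChk_sound t8A_eq dtA_eq c495_eq c506_eq c330_eq rfl gA_196
theorem fkA_197 : ∀ f ∈ bA_197, FrOK repA f :=
  frChk_sound t8A_eq dtA_eq c495_eq c506_eq c330_eq rfl gA_197
theorem fkA_198 : ∀ f ∈ bA_198, FrOK repA f :=
  frChk_sound t8A_eq dtA_eq c495_eq c506_eq c330_eq rfl gA_198

theorem fkA : ∀ l ∈ BA, ∀ f ∈ l, FrOK repA f :=
  List.forall_mem_cons.2 ⟨fkA_0,
  List.forall_mem_cons.2 ⟨fkA_1,
  List.forall_mem_cons.2 ⟨fkA_2,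
  List.forall_mem_cons.2 ⟨fkA_3,
  List.forall_mem_cons.2 ⟨fkA_4,
  List.forall_mem_cons.2 ⟨fkA_5,
  List.forall_mem_cons.2 ⟨fkA_6,
  List.forall_mem_cons.2 ⟨fkA_7,
  List.forall_mem_cons.2 ⟨fkA_8,
  List.forall_mem_cons.2 ⟨fkA_9,
  List.forall_mem_cons.2 ⟨fkA_10,
  List.forall_mem_cons.2 ⟨fkA_11,
  List.forall_mem_cons.2 ⟨fkA_12,
  List.forall_mem_cons.2 ⟨fkA_13,
  List.forall_mem_cons.2 ⟨fkA_14,
  List.forall_mem_cons.2 ⟨fkA_15,
  List.forall_mem_cons.2 ⟨fkA_16,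
  List.forall_mem_cons.2 ⟨fkA_17,
  List.forall_mem_cons.2 ⟨fkA_18,
  List.forall_mem_cons.2 ⟨fkA_19,
  List.forall_mem_cons.2 ⟨fkA_20,
  List.forall_mem_cons.2 ⟨fkA_21,
  List.forall_mem_cons.2 ⟨fkA_22,
  List.forall_mem_cons.2 ⟨fkA_23,
  List.forall_mem_cons.2 ⟨fkA_24,
  List.forall_mem_cons.2 ⟨fkA_25,
  List.forall_mem_cons.2 ⟨fkA_26,
  List.forall_mem_cons.2 ⟨fkA_27,
  List.forall_mem_cons.2 ⟨fkA_28,
  List.forall_mem_cons.2 ⟨fkA_29,
  List.forall_mem_cons.2 ⟨fkA_30,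
  List.forall_mem_cons.2 ⟨fkA_31,
  List.forall_mem_cons.2 ⟨fkA_32,
  List.forall_mem_cons.2 ⟨fkA_33,
  List.forall_mem_cons.2 ⟨fkA_34,
  List.forall_mem_cons.2 ⟨fkA_35,
  List.forall_mem_cons.2 ⟨fkA_36,
  List.forall_mem_cons.2 ⟨fkA_37,
  List.forall_mem_cons.2 ⟨fkA_38,
  List.forall_mem_cons.2 ⟨fkA_39,
  List.forall_mem_cons.2 ⟨fkA_40,
  List.forall_mem_cons.2 ⟨fkA_41,
  List.forall_mem_cons.2 ⟨fkA_42,
  List.forall_mem_cons.2 ⟨fkA_43,
  List.forall_mem_cons.2 ⟨fkA_44,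
  List.forall_mem_cons.2 ⟨fkA_45,
  List.forall_mem_cons.2 ⟨fkA_46,
  List.forall_mem_cons.2 ⟨fkA_47,
  List.forall_mem_cons.2 ⟨fkA_48,
  List.forall_mem_cons.2 ⟨fkA_49,
  List.forall_mem_cons.2 ⟨fkA_50,
  List.forall_mem_cons.2 ⟨fkA_51,
  List.forall_mem_cons.2 ⟨fkA_52,
  List.forall_mem_cons.2 ⟨fkA_53,
  List.forall_mem_cons.2 ⟨fkA_54,
  List.forall_mem_cons.2 ⟨fkA_55,
  List.forall_mem_cons.2 ⟨fkA_56,
  List.forall_mem_cons.2 ⟨fkA_57,
  List.forall_mem_cons.2 ⟨fkA_58,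
  List.forall_mem_cons.2 ⟨fkA_59,
  List.forall_mem_cons.2 ⟨fkA_60,
  List.forall_mem_cons.2 ⟨fkA_61,
  List.forall_mem_cons.2 ⟨fkA_62,
  List.forall_mem_cons.2 ⟨fkA_63,
  List.forall_mem_cons.2 ⟨fkA_64,
  List.forall_mem_cons.2 ⟨fkA_65,
  List.forall_mem_cons.2 ⟨fkA_66,
  List.forall_mem_cons.2 ⟨fkA_67,
  List.forall_mem_cons.2 ⟨fkA_68,
  List.forall_mem_cons.2 ⟨fkA_69,
  List.forall_mem_cons.2 ⟨fkA_70,
  List.forall_mem_cons.2 ⟨fkA_71,
  List.forall_mem_cons.2 ⟨fkA_72,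
  List.forall_mem_cons.2 ⟨fkA_73,
  List.forall_mem_cons.2 ⟨fkA_74,
  List.forall_mem_cons.2 ⟨fkA_75,
  List.forall_mem_cons.2 ⟨fkA_76,
  List.forall_mem_cons.2 ⟨fkA_77,
  List.forall_mem_cons.2 ⟨fkA_78,
  List.forall_mem_cons.2 ⟨fkA_79,
  List.forall_mem_cons.2 ⟨fkA_80,
  List.forall_mem_cons.2 ⟨fkA_81,
  List.forall_mem_cons.2 ⟨fkA_82,
  List.forall_mem_cons.2 ⟨fkA_83,
  List.forall_mem_cons.2 ⟨fkA_84,
  List.forall_mem_cons.2 ⟨fkA_85,
  List.forall_mem_cons.2 ⟨fkA_86,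
  List.forall_mem_cons.2 ⟨fkA_87,
  List.forall_mem_cons.2 ⟨fkA_88,
  List.forall_mem_cons.2 ⟨fkA_89,
  List.forall_mem_cons.2 ⟨fkA_90,
  List.forall_mem_cons.2 ⟨fkA_91,
  List.forall_mem_cons.2 ⟨fkA_92,
  List.forall_mem_cons.2 ⟨fkA_93,
  List.forall_mem_cons.2 ⟨fkA_94,
  List.forall_mem_cons.2 ⟨fkA_95,
  List.forall_mem_cons.2 ⟨fkA_96,
  List.forall_mem_cons.2 ⟨fkA_97,
  List.forall_mem_cons.2 ⟨fkA_98,
  List.forall_mem_cons.2 ⟨fkA_99,
  List.forall_mem_cons.2 ⟨fkA_100,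
  List.forall_mem_cons.2 ⟨fkA_101,
  List.forall_mem_cons.2 ⟨fkA_102,
  List.forall_mem_cons.2 ⟨fkA_103,
  List.forall_mem_cons.2 ⟨fkA_104,
  List.forall_mem_cons.2 ⟨fkA_105,
  List.forall_mem_cons.2 ⟨fkA_106,
  List.forall_mem_cons.2 ⟨fkA_107,
  List.forall_mem_cons.2 ⟨fkA_108,
  List.forall_mem_cons.2 ⟨fkA_109,
  List.forall_mem_cons.2 ⟨fkA_110,
  List.forall_mem_cons.2 ⟨fkA_111,
  List.forall_mem_cons.2 ⟨fkA_112,
  List.forall_mem_cons.2 ⟨fkA_113,
  List.forall_mem_cons.2 ⟨fkA_114,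
  List.forall_mem_cons.2 ⟨fkA_115,
  List.forall_mem_cons.2 ⟨fkA_116,
  List.forall_mem_cons.2 ⟨fkA_117,
  List.forall_mem_cons.2 ⟨fkA_118,
  List.forall_mem_cons.2 ⟨fkA_119,
  List.forall_mem_cons.2 ⟨fkA_120,
  List.forall_mem_cons.2 ⟨fkA_121,
  List.forall_mem_cons.2 ⟨fkA_122,
  List.forall_mem_cons.2 ⟨fkA_123,
  List.forall_mem_cons.2 ⟨fkA_124,
  List.forall_mem_cons.2 ⟨fkA_125,
  List.forall_mem_cons.2 ⟨fkA_126,
  List.forall_mem_cons.2 ⟨fkA_127,
  List.forall_mem_cons.2 ⟨fkA_128,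
  List.forall_mem_cons.2 ⟨fkA_129,
  List.forall_mem_cons.2 ⟨fkA_130,
  List.forall_mem_cons.2 ⟨fkA_131,
  List.forall_mem_cons.2 ⟨fkA_132,
  List.forall_mem_cons.2 ⟨fkA_133,
  List.forall_mem_cons.2 ⟨fkA_134,
  List.forall_mem_cons.2 ⟨fkA_135,
  List.forall_mem_cons.2 ⟨fkA_136,
  List.forall_mem_cons.2 ⟨fkA_137,
  List.forall_mem_cons.2 ⟨fkA_138,
  List.forall_mem_cons.2 ⟨fkA_139,
  List.forall_mem_cons.2 ⟨fkA_140,
  List.forall_mem_cons.2 ⟨fkA_141,
  List.forall_mem_cons.2 ⟨fkA_142,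
  List.forall_mem_cons.2 ⟨fkA_143,
  List.forall_mem_cons.2 ⟨fkA_144,
  List.forall_mem_cons.2 ⟨fkA_145,
  List.forall_mem_cons.2 ⟨fkA_146,
  List.forall_mem_cons.2 ⟨fkA_147,
  List.forall_mem_cons.2 ⟨fkA_148,
  List.forall_mem_cons.2 ⟨fkA_149,
  List.forall_mem_cons.2 ⟨fkA_150,
  List.forall_mem_cons.2 ⟨fkA_151,
  List.forall_mem_cons.2 ⟨fkA_152,
  List.forall_mem_cons.2 ⟨fkA_153,
  List.forall_mem_cons.2 ⟨fkA_154,
  List.forall_mem_cons.2 ⟨fkA_155,
  List.forall_mem_cons.2 ⟨fkA_156,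
  List.forall_mem_cons.2 ⟨fkA_157,
  List.forall_mem_cons.2 ⟨fkA_158,
  List.forall_mem_cons.2 ⟨fkA_159,
  List.forall_mem_cons.2 ⟨fkA_160,
  List.forall_mem_cons.2 ⟨fkA_161,
  List.forall_mem_cons.2 ⟨fkA_162,
  List.forall_mem_cons.2 ⟨fkA_163,
  List.forall_mem_cons.2 ⟨fkA_164,
  List.forall_mem_cons.2 ⟨fkA_165,
  List.forall_mem_cons.2 ⟨fkA_166,
  List.forall_mem_cons.2 ⟨fkA_167,
  List.forall_mem_cons.2 ⟨fkA_168,
  List.forall_mem_cons.2 ⟨fkA_169,
  List.forall_mem_cons.2 ⟨fkA_170,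
  List.forall_mem_cons.2 ⟨fkA_171,
  List.forall_mem_cons.2 ⟨fkA_172,
  List.forall_mem_cons.2 ⟨fkA_173,
  List.forall_mem_cons.2 ⟨fkA_174,
  List.forall_mem_cons.2 ⟨fkA_175,
  List.forall_mem_cons.2 ⟨fkA_176,
  List.forall_mem_cons.2 ⟨fkA_177,
  List.forall_mem_cons.2 ⟨fkA_178,
  List.forall_mem_cons.2 ⟨fkA_179,
  List.forall_mem_cons.2 ⟨fkA_180,
  List.forall_mem_cons.2 ⟨fkA_181,
  List.forall_mem_cons.2 ⟨fkA_182,
  List.forall_mem_cons.2 ⟨fkA_183,
  List.forall_mem_cons.2 ⟨fkA_184,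
  List.forall_mem_cons.2 ⟨fkA_185,
  List.forall_mem_cons.2 ⟨fkA_186,
  List.forall_mem_cons.2 ⟨fkA_187,
  List.forall_mem_cons.2 ⟨fkA_188,
  List.forall_mem_cons.2 ⟨fkA_189,
  List.forall_mem_cons.2 ⟨fkA_190,
  List.forall_mem_cons.2 ⟨fkA_191,
  List.forall_mem_cons.2 ⟨fkA_192,
  List.forall_mem_cons.2 ⟨fkA_193,
  List.forall_mem_cons.2 ⟨fkA_194,
  List.forall_mem_cons.2 ⟨fkA_195,
  List.forall_mem_cons.2 ⟨fkA_196,
  List.forall_mem_cons.2 ⟨fkA_197,
  List.forall_mem_cons.2 ⟨fkA_198,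
  List.forall_mem_nil _⟩⟩⟩⟩⟩⟩⟩⟩⟩⟩⟩⟩⟩⟩⟩⟩⟩⟩⟩⟩⟩⟩⟩⟩⟩⟩⟩⟩⟩⟩⟩⟩⟩⟩⟩⟩⟩⟩⟩⟩⟩⟩⟩⟩⟩⟩⟩⟩⟩⟩⟩⟩⟩⟩⟩⟩⟩⟩⟩⟩⟩⟩⟩⟩⟩⟩⟩⟩⟩⟩⟩⟩⟩⟩⟩⟩⟩⟩⟩⟩⟩⟩⟩⟩⟩⟩⟩⟩⟩⟩⟩⟩⟩⟩⟩⟩⟩⟩⟩⟩⟩⟩⟩⟩⟩⟩⟩⟩⟩⟩⟩⟩⟩⟩⟩⟩⟩⟩⟩⟩⟩⟩⟩⟩⟩⟩⟩⟩⟩⟩⟩⟩⟩⟩⟩⟩⟩⟩⟩⟩⟩⟩⟩⟩⟩⟩⟩⟩⟩⟩⟩⟩⟩⟩⟩⟩⟩⟩⟩⟩⟩⟩⟩⟩⟩⟩⟩⟩⟩⟩⟩⟩⟩⟩⟩⟩⟩⟩⟩⟩⟩⟩⟩⟩⟩⟩⟩⟩⟩⟩⟩⟩⟩⟩⟩⟩⟩⟩⟩

end Pool.Agent.Gen.TY.T
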