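import Pool.Agent.Gen.TY.T.FrB

/-!
MP_8ee768_co, project TH-Y', stage T: the frames over `repB` are correct.
-/

set_option autoImplicit false
set_option maxRecDepth 100000
set_option exponentiation.threshold 600

namespace Pool.Agent.Gen.TY.T

open Pool.Agent.Helper30.TY Pool.Agent.Helper33.TY
open Pool.Agent.Helper79.CV Pool.Agent.Helper33.CV
open Pool.Agent.Helper67.TY (repA repB autA autB)

theorem gB_0 : allL (frChk1 repB c495 c506 c330 t8B dtB topM) bB_0 = true := by decide +kernel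
theorem gB_1 : allL (frChk1 repB c495 c506 c330 t8B dtB topM) bB_1 = true := by decide +kernel
theorem gB_2 : allL (frChk1 repB c495 c506 c330 t8B dtB topM) bB_2 = true := by decide +kernel
theorem gB_3 : allL (frChk1 repB c495 c506 c330 t8B dtB topM) bB_3 = true := by decide +kernel
theorem gB_4 : allL (frChk1 repB c495 c506 c330 t8B dtB topM) bB_4 = true := by decide +kernel
theorem gB_5 : allL (frChk1 repB c495 c506 c330 t8B dtB topM) bB_5 = true := by decide +kernel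
theorem gB_6 : allL (frChk1 repB c495 c506 c330 t8B dtB topM) bB_6 = true := by decide +kernel
theorem gB_7 : allL (frChk1 repB c495 c506 c330 t8B dtB topM) bB_7 = true := by decide +kernel
theorem gB_8 : allL (frChk1 repB c495 c506 c330 t8B dtB topM) bB_8 = true := by decide +kernel
theorem gB_9 : allL (frChk1 repB c495 c506 c330 t8B dtB topM) bB_9 = true := by decide +kernel
theorem gB_10 : allL (frChk1 repB c495 c506 c330 t8B dtB topM) bB_10 = true := by decide +kernel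
theorem gB_11 : allL (frChk1 repB c495 c506 c330 t8B dtB topM) bB_11 = true := by decide +kernel
theorem gB_12 : allL (frChk1 repB c495 c506 c330 t8B dtB topM) bB_12 = true := by decide +kernel
theorem gB_13 : allL (frChk1 repB c495 c506 c330 t8B dtB topM) bB_13 = true := by decide +kernel
theorem gB_14 : allL (frChk1 repB c495 c506 c330 t8B dtB topM) bB_14 = true := by decide +kernel
theorem gB_15 : allL (frChk1 repB c495 c506 c330 t8B dtB topM) bB_15 = true := by decide +kernel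
theorem gB_16 : allL (frChk1 repB c495 c506 c330 t8B dtB topM) bB_16 = true := by decide +kernel
theorem gB_17 : allL (frChk1 repB c495 c506 c330 t8B dtB topM) bB_17 = true := by decide +kernel
theorem gB_18 : allL (frChk1 repB c495 c506 c330 t8B dtB topM) bB_18 = true := by decide +kernel
theorem gB_19 : allL (frChk1 repB c495 c506 c330 t8B dtB topM) bB_19 = true := by decide +kernel
theorem gB_20 : allL (frChk1 repB c495 c506 c330 t8B dtB topM) bB_20 = true := by decide +kernel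
theorem gB_21 : allL (frChk1 repB c495 c506 c330 t8B dtB topM) bB_21 = true := by decide +kernel
theorem gB_22 : allL (frChk1 repB c495 c506 c330 t8B dtB topM) bB_22 = true := by decide +kernel
theorem gB_23 : allL (frChk1 repB c495 c506 c330 t8B dtB topM) bB_23 = true := by decide +kernel
theorem gB_24 : allL (frChk1 repB c495 c506 c330 t8B dtB topM) bB_24 = true := by decide +kernel
theorem gB_25 : allL (frChk1 repB c495 c506 c330 t8B dtB topM) bB_25 = true := by decide +kernel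
theorem gB_26 : allL (frChk1 repB c495 c506 c330 t8B dtB topM) bB_26 = true := by decide +kernel
theorem gB_27 : allL (frChk1 repB c495 c506 c330 t8B dtB topM) bB_27 = true := by decide +kernel
theorem gB_28 : allL (frChk1 repB c495 c506 c330 t8B dtB topM) bB_28 = true := by decide +kernel
theorem gB_29 : allL (frChk1 repB c495 c506 c330 t8B dtB topM) bB_29 = true := by decide +kernel
theorem gB_30 : allL (frChk1 repB c495 c506 c330 t8B dtB topM) bB_30 = true := by decide +kernel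
theorem gB_31 : allL (frChk1 repB c495 c506 c330 t8B dtB topM) bB_31 = true := by decide +kernel
theorem gB_32 : allL (frChk1 repB c495 c506 c330 t8B dtB topM) bB_32 = true := by decide +kernel
theorem gB_33 : allL (frChk1 repB c495 c506 c330 t8B dtB topM) bB_33 = true := by decide +kernel
theorem gB_34 : allL (frChk1 repB c495 c506 c330 t8B dtB topM) bB_34 = true := by decide +kernel
theorem gB_35 : allL (frChk1 repB c495 c506 c330 t8B dtB topM) bB_35 = true := by decide +kernel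
theorem gB_36 : allL (frChk1 repB c495 c506 c330 t8B dtB topM) bB_36 = true := by decide +kernel
theorem gB_37 : allL (frChk1 repB c495 c506 c330 t8B dtB topM) bB_37 = true := by decide +kernel
theorem gB_38 : allL (frChk1 repB c495 c506 c330 t8B dtB topM) bB_38 = true := by decide +kernel
theorem gB_39 : allL (frChk1 repB c495 c506 c330 t8B dtB topM) bB_39 = true := by decide +kernel
theorem gB_40 : allL (frChk1 repB c495 c506 c330 t8B dtB topM) bB_40 = true := by decide +kernel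
theorem gB_41 : allL (frChk1 repB c495 c506 c330 t8B dtB topM) bB_41 = true := by decide +kernel
theorem gB_42 : allL (frChk1 repB c495 c506 c330 t8B dtB topM) bB_42 = true := by decide +kernel
theorem gB_43 : allL (frChk1 repB c495 c506 c330 t8B dtB topM) bB_43 = true := by decide +kernel
theorem gB_44 : allL (frChk1 repB c495 c506 c330 t8B dtB topM) bB_44 = true := by decide +kernel
theorem gB_45 : allL (frChk1 repB c495 c506 c330 t8B dtB topM) bB_45 = true := by decide +kernel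
theorem gB_46 : allL (frChk1 repB c495 c506 c330 t8B dtB topM) bB_46 = true := by decide +kernel
theorem gB_47 : allL (frChk1 repB c495 c506 c330 t8B dtB topM) bB_47 = true := by decide +kernel
theorem gB_48 : allL (frChk1 repB c495 c506 c330 t8B dtB topM) bB_48 = true := by decide +kernel
theorem gB_49 : allL (frChk1 repB c495 c506 c330 t8B dtB topM) bB_49 = true := by decide +kernel
theorem gB_50 : allL (frChk1 repB c495 c506 c330 t8B dtB topM) bB_50 = true := by decide +kernel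
theorem gB_51 : allL (frChk1 repB c495 c506 c330 t8B dtB topM) bB_51 = true := by decide +kernel
theorem gB_52 : allL (frChk1 repB c495 c506 c330 t8B dtB topM) bB_52 = true := by decide +kernel
theorem gB_53 : allL (frChk1 repB c495 c506 c330 t8B dtB topM) bB_53 = true := by decide +kernel
theorem gB_54 : allL (frChk1 repB c495 c506 c330 t8B dtB topM) bB_54 = true := by decide +kernel
theorem gB_55 : allL (frChk1 repB c495 c506 c330 t8B dtB topM) bB_55 = true := by decide +kernel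
theorem gB_56 : allL (frChk1 repB c495 c506 c330 t8B dtB topM) bB_56 = true := by decide +kernel
theorem gB_57 : allL (frChk1 repB c495 c506 c330 t8B dtB topM) bB_57 = true := by decide +kernel
theorem gB_58 : allL (frChk1 repB c495 c506 c330 t8B dtB topM) bB_58 = true := by decide +kernel
theorem gB_59 : allL (frChk1 repB c495 c506 c330 t8B dtB topM) bB_59 = true := by decide +kernel
theorem gB_60 : allL (frChk1 repB c495 c506 c330 t8B dtB topM) bB_60 = true := by decide +kernel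
theorem gB_61 : allL (frChk1 repB c495 c506 c330 t8B dtB topM) bB_61 = true := by decide +kernel
theorem gB_62 : allL (frChk1 repB c495 c506 c330 t8B dtB topM) bB_62 = true := by decide +kernel
theorem gB_63 : allL (frChk1 repB c495 c506 c330 t8B dtB topM) bB_63 = true := by decide +kernel
theorem gB_64 : allL (frChk1 repB c495 c506 c330 t8B dtB topM) bB_64 = true := by decide +kernel
theorem gB_65 : allL (frChk1 repB c495 c506 c330 t8B dtB topM) bB_65 = true := by decide +kernel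
theorem gB_66 : allL (frChk1 repB c495 c506 c330 t8B dtB topM) bB_66 = true := by decide +kernel
theorem gB_67 : allL (frChk1 repB c495 c506 c330 t8B dtB topM) bB_67 = true := by decide +kernel
theorem gB_68 : allL (frChk1 repB c495 c506 c330 t8B dtB topM) bB_68 = true := by decide +kernel
theorem gB_69 : allL (frChk1 repB c495 c506 c330 t8B dtB topM) bB_69 = true := by decide +kernel
theorem gB_70 : allL (frChk1 repB c495 c506 c330 t8B dtB topM) bB_70 = true := by decide +kernel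
theorem gB_71 : allL (frChk1 repB c495 c506 c330 t8B dtB topM) bB_71 = true := by decide +kernel
theorem gB_72 : allL (frChk1 repB c495 c506 c330 t8B dtB topM) bB_72 = true := by decide +kernel
theorem gB_73 : allL (frChk1 repB c495 c506 c330 t8B dtB topM) bB_73 = true := by decide +kernel
theorem gB_74 : allL (frChk1 repB c495 c506 c330 t8B dtB topM) bB_74 = true := by decide +kernel
theorem gB_75 : allL (frChk1 repB c495 c506 c330 t8B dtB topM) bB_75 = true := by decide +kernel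
theorem gB_76 : allL (frChk1 repB c495 c506 c330 t8B dtB topM) bB_76 = true := by decide +kernel
theorem gB_77 : allL (frChk1 repB c495 c506 c330 t8B dtB topM) bB_77 = true := by decide +kernel
theorem gB_78 : allL (frChk1 repB c495 c506 c330 t8B dtB topM) bB_78 = true := by decide +kernel
theorem gB_79 : allL (frChk1 repB c495 c506 c330 t8B dtB topM) bB_79 = true := by decide +kernel
theorem gB_80 : allL (frChk1 repB c495 c506 c330 t8B dtB topM) bB_80 = true := by decide +kernel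
theorem gB_81 : allL (frChk1 repB c495 c506 c330 t8B dtB topM) bB_81 = true := by decide +kernel
theorem gB_82 : allL (frChk1 repB c495 c506 c330 t8B dtB topM) bB_82 = true := by decide +kernel
theorem gB_83 : allL (frChk1 repB c495 c506 c330 t8B dtB topM) bB_83 = true := by decide +kernel
theorem gB_84 : allL (frChk1 repB c495 c506 c330 t8B dtB topM) bB_84 = true := by decide +kernel
theorem gB_85 : allL (frChk1 repB c495 c506 c330 t8B dtB topM) bB_85 = true := by decide +kernel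
theorem gB_86 : allL (frChk1 repB c495 c506 c330 t8B dtB topM) bB_86 = true := by decide +kernel
theorem gB_87 : allL (frChk1 repB c495 c506 c330 t8B dtB topM) bB_87 = true := by decide +kernel
theorem gB_88 : allL (frChk1 repB c495 c506 c330 t8B dtB topM) bB_88 = true := by decide +kernel
theorem gB_89 : allL (frChk1 repB c495 c506 c330 t8B dtB topM) bB_89 = true := by decide +kernel
theorem gB_90 : allL (frChk1 repB c495 c506 c330 t8B dtB topM) bB_90 = true := by decide +kernel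
theorem gB_91 : allL (frChk1 repB c495 c506 c330 t8B dtB topM) bB_91 = true := by decide +kernel
theorem gB_92 : allL (frChk1 repB c495 c506 c330 t8B dtB topM) bB_92 = true := by decide +kernel
theorem gB_93 : allL (frChk1 repB c495 c506 c330 t8B dtB topM) bB_93 = true := by decide +kernel
theorem gB_94 : allL (frChk1 repB c495 c506 c330 t8B dtB topM) bB_94 = true := by decide +kernel
theorem gB_95 : allL (frChk1 repB c495 c506 c330 t8B dtB topM) bB_95 = true := by decide +kernel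
theorem gB_96 : allL (frChk1 repB c495 c506 c330 t8B dtB topM) bB_96 = true := by decide +kernel
theorem gB_97 : allL (frChk1 repB c495 c506 c330 t8B dtB topM) bB_97 = true := by decide +kernel
theorem gB_98 : allL (frChk1 repB c495 c506 c330 t8B dtB topM) bB_98 = true := by decide +kernel
theorem gB_99 : allL (frChk1 repB c495 c506 c330 t8B dtB topM) bB_99 = true := by decide +kernel
theorem gB_100 : allL (frChk1 repB c495 c506 c330 t8B dtB topM) bB_100 = true := by decide +kernel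
theorem gB_101 : allL (frChk1 repB c495 c506 c330 t8B dtB topM) bB_101 = true := by decide +kernel
theorem gB_102 : allL (frChk1 repB c495 c506 c330 t8B dtB topM) bB_102 = true := by decide +kernel
theorem gB_103 : allL (frChk1 repB c495 c506 c330 t8B dtB topM) bB_103 = true := by decide +kernel
theorem gB_104 : allL (frChk1 repB c495 c506 c330 t8B dtB topM) bB_104 = true := by decide +kernel
theorem fkB_0 : ∀ f ∈ bB_0, FrOK repB f :=
  frChk_sound t8B_eq dtB_eq c495_eq c506_eq c330_eq rfl gB_0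
theorem fkB_1 : ∀ f ∈ bB_1, FrOK repB f :=
  frChk_sound t8B_eq dtB_eq c495_eq c506_eq c330_eq rfl gB_1
theorem fkB_2 : ∀ f ∈ bB_2, FrOK repB f :=
  frChk_sound t8B_eq dtB_eq c495_eq c506_eq c330_eq rfl gB_2
theorem fkB_3 : ∀ f ∈ bB_3, FrOK repB f :=
  frChk_sound t8B_eq dtB_eq c495_eq c506_eq c330_eq rfl gB_3
theorem fkB_4 : ∀ f ∈ bB_4, FrOK repB f :=
  frChk_sound t8B_eq dtB_eq c495_eq c506_eq c330_eq rfl gB_4
theorem fkB_5 : ∀ f ∈ bB_5, FrOK repB f :=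
  frChk_sound t8B_eq dtB_eq c495_eq c506_eq c330_eq rfl gB_5
theorem fkB_6 : ∀ f ∈ bB_6, FrOK repB f :=
  frChk_sound t8B_eq dtB_eq c495_eq c506_eq c330_eq rfl gB_6
theorem fkB_7 : ∀ f ∈ bB_7, FrOK repB f :=
  frChk_sound t8B_eq dtB_eq c495_eq c506_eq c330_eq rfl gB_7
theorem fkB_8 : ∀ f ∈ bB_8, FrOK repB f :=
  frChk_sound t8B_eq dtB_eq c495_eq c506_eq c330_eq rfl gB_8
theorem fkB_9 : ∀ f ∈ bB_9, FrOK repB f :=
  frChk_sound t8B_eq dtB_eq c495_eq c506_eq c330_eq rfl gB_9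
theorem fkB_10 : ∀ f ∈ bB_10, FrOK repB f :=
  frChk_sound t8B_eq dtB_eq c495_eq c506_eq c330_eq rfl gB_10
theorem fkB_11 : ∀ f ∈ bB_11, FrOK repB f :=
  frChk_sound t8B_eq dtB_eq c495_eq c506_eq c330_eq rfl gB_11
theorem fkB_12 : ∀ f ∈ bB_12, FrOK repB f :=
  frChk_sound t8B_eq dtB_eq c495_eq c506_eq c330_eq rfl gB_12
theorem fkB_13 : ∀ f ∈ bB_13, FrOK repB f :=
  frChk_sound t8B_eq dtB_eq c495_eq c506_eq c330_eq rfl gB_13
theorem fkB_14 : ∀ f ∈ bB_14, FrOK repB f :=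
  frChk_sound t8B_eq dtB_eq c495_eq c506_eq c330_eq rfl gB_14
theorem fkB_15 : ∀ f ∈ bB_15, FrOK repB f :=
  frChk_sound t8B_eq dtB_eq c495_eq c506_eq c330_eq rfl gB_15
theorem fkB_16 : ∀ f ∈ bB_16, FrOK repB f :=
  frChk_sound t8B_eq dtB_eq c495_eq c506_eq c330_eq rfl gB_16
theorem fkB_17 : ∀ f ∈ bB_17, FrOK repB f :=
  frChk_sound t8B_eq dtB_eq c495_eq c506_eq c330_eq rfl gB_17
theorem fkB_18 : ∀ f ∈ bB_18, FrOK repB f :=
  frChk_sound t8B_eq dtB_eq c495_eq c506_eq c330_eq rfl gB_18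
theorem fkB_19 : ∀ f ∈ bB_19, FrOK repB f :=
  frChk_sound t8B_eq dtB_eq c495_eq c506_eq c330_eq rfl gB_19
theorem fkB_20 : ∀ f ∈ bB_20, FrOK repB f :=
  frChk_sound t8B_eq dtB_eq c495_eq c506_eq c330_eq rfl gB_20
theorem fkB_21 : ∀ f ∈ bB_21, FrOK repB f :=
  frChk_sound t8B_eq dtB_eq c495_eq c506_eq c330_eq rfl gB_21
theorem fkB_22 : ∀ f ∈ bB_22, FrOK repB f :=
  frChk_sound t8B_eq dtB_eq c495_eq c506_eq c330_eq rfl gB_22
theorem fkB_23 : ∀ f ∈ bB_23, FrOK repB f :=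
  frChk_sound t8B_eq dtB_eq c495_eq c506_eq c330_eq rfl gB_23
theorem fkB_24 : ∀ f ∈ bB_24, FrOK repB f :=
  frChk_sound t8B_eq dtB_eq c495_eq c506_eq c330_eq rfl gB_24
theorem fkB_25 : ∀ f ∈ bB_25, FrOK repB f :=
  frChk_sound t8B_eq dtB_eq c495_eq c506_eq c330_eq rfl gB_25
theorem fkB_26 : ∀ f ∈ bB_26, FrOK repB f :=
  frChk_sound t8B_eq dtB_eq c495_eq c506_eq c330_eq rfl gB_26
theorem fkB_27 : ∀ f ∈ bB_27, FrOK repB f :=
  frChk_sound t8B_eq dtB_eq c495_eq c506_eq c330_eq rfl gB_27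
theorem fkB_28 : ∀ f ∈ bB_28, FrOK repB f :=
  frChk_sound t8B_eq dtB_eq c495_eq c506_eq c330_eq rfl gB_28
theorem fkB_29 : ∀ f ∈ bB_29, FrOK repB f :=
  frChk_sound t8B_eq dtB_eq c495_eq c506_eq c330_eq rfl gB_29
theorem fkB_30 : ∀ f ∈ bB_30, FrOK repB f :=
  frChk_sound t8B_eq dtB_eq c495_eq c506_eq c330_eq rfl gB_30
theorem fkB_31 : ∀ f ∈ bB_31, FrOK repB f :=
  frChk_sound t8B_eq dtB_eq c495_eq c506_eq c330_eq rfl gB_31
theorem fkB_32 : ∀ f ∈ bB_32, FrOK repB f :=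
  frChk_sound t8B_eq dtB_eq c495_eq c506_eq c330_eq rfl gB_32
theorem fkB_33 : ∀ f ∈ bB_33, FrOK repB f :=
  frChk_sound t8B_eq dtB_eq c495_eq c506_eq c330_eq rfl gB_33
theorem fkB_34 : ∀ f ∈ bB_34, FrOK repB f :=
  frChk_sound t8B_eq dtB_eq c495_eq c506_eq c330_eq rfl gB_34
theorem fkB_35 : ∀ f ∈ bB_35, FrOK repB f :=
  frChk_sound t8B_eq dtB_eq c495_eq c506_eq c330_eq rfl gB_35
theorem fkB_36 : ∀ f ∈ bB_36, FrOK repB f :=
  frChk_sound t8B_eq dtB_eq c495_eq c506_eq c330_eq rfl gB_36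
theorem fkB_37 : ∀ f ∈ bB_37, FrOK repB f :=
  frChk_sound t8B_eq dtB_eq c495_eq c506_eq c330_eq rfl gB_37
theorem fkB_38 : ∀ f ∈ bB_38, FrOK repB f :=
  frChk_sound t8B_eq dtB_eq c495_eq c506_eq c330_eq rfl gB_38
theorem fkB_39 : ∀ f ∈ bB_39, FrOK repB f :=
  frChk_sound t8B_eq dtB_eq c495_eq c506_eq c330_eq rfl gB_39
theorem fkB_40 : ∀ f ∈ bB_40, FrOK repB f :=
  frChk_sound t8B_eq dtB_eq c495_eq c506_eq c330_eq rfl gB_40
theorem fkB_41 : ∀ f ∈ bB_41, FrOK repB f :=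
  frChk_sound t8B_eq dtB_eq c495_eq c506_eq c330_eq rfl gB_41
theorem fkB_42 : ∀ f ∈ bB_42, FrOK repB f :=
  frChk_sound t8B_eq dtB_eq c495_eq c506_eq c330_eq rfl gB_42
theorem fkB_43 : ∀ f ∈ bB_43, FrOK repB f :=
  frChk_sound t8B_eq dtB_eq c495_eq c506_eq c330_eq rfl gB_43
theorem fkB_44 : ∀ f ∈ bB_44, FrOK repB f :=
  frChk_sound t8B_eq dtB_eq c495_eq c506_eq c330_eq rfl gB_44
theorem fkB_45 : ∀ f ∈ bB_45, FrOK repB f :=
  frChk_sound t8B_eq dtB_eq c495_eq c506_eq c330_eq rfl gB_45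
theorem fkB_46 : ∀ f ∈ bB_46, FrOK repB f :=
  frChk_sound t8B_eq dtB_eq c495_eq c506_eq c330_eq rfl gB_46
theorem fkB_47 : ∀ f ∈ bB_47, FrOK repB f :=
  frChk_sound t8B_eq dtB_eq c495_eq c506_eq c330_eq rfl gB_47
theorem fkB_48 : ∀ f ∈ bB_48, FrOK repB f :=
  frChk_sound t8B_eq dtB_eq c495_eq c506_eq c330_eq rfl gB_48
theorem fkB_49 : ∀ f ∈ bB_49, FrOK repB f :=
  frChk_sound t8B_eq dtB_eq c495_eq c506_eq c330_eq rfl gB_49
theorem fkB_50 : ∀ f ∈ bB_50, FrOK repB f :=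
  frChk_sound t8B_eq dtB_eq c495_eq c506_eq c330_eq rfl gB_50
theorem fkB_51 : ∀ f ∈ bB_51, FrOK repB f :=
  frChk_sound t8B_eq dtB_eq c495_eq c506_eq c330_eq rfl gB_51
theorem fkB_52 : ∀ f ∈ bB_52, FrOK repB f :=
  frChk_sound t8B_eq dtB_eq c495_eq c506_eq c330_eq rfl gB_52
theorem fkB_53 : ∀ f ∈ bB_53, FrOK repB f :=
  frChk_sound t8B_eq dtB_eq c495_eq c506_eq c330_eq rfl gB_53
theorem fkB_54 : ∀ f ∈ bB_54, FrOK repB f :=
  frChk_sound t8B_eq dtB_eq c495_eq c506_eq c330_eq rfl gB_54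
theorem fkB_55 : ∀ f ∈ bB_55, FrOK repB f :=
  frChk_sound t8B_eq dtB_eq c495_eq c506_eq c330_eq rfl gB_55
theorem fkB_56 : ∀ f ∈ bB_56, FrOK repB f :=
  frChk_sound t8B_eq dtB_eq c495_eq c506_eq c330_eq rfl gB_56
theorem fkB_57 : ∀ f ∈ bB_57, FrOK repB f :=
  frChk_sound t8B_eq dtB_eq c495_eq c506_eq c330_eq rfl gB_57
theorem fkB_58 : ∀ f ∈ bB_58, FrOK repB f :=
  frChk_sound t8B_eq dtB_eq c495_eq c506_eq c330_eq rfl gB_58
theorem fkB_59 : ∀ f ∈ bB_59, FrOK repB f :=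
  frChk_sound t8B_eq dtB_eq c495_eq c506_eq c330_eq rfl gB_59
theorem fkB_60 : ∀ f ∈ bB_60, FrOK repB f :=
  frChk_sound t8B_eq dtB_eq c495_eq c506_eq c330_eq rfl gB_60
theorem fkB_61 : ∀ f ∈ bB_61, FrOK repB f :=
  frChk_sound t8B_eq dtB_eq c495_eq c506_eq c330_eq rfl gB_61
theorem fkB_62 : ∀ f ∈ bB_62, FrOK repB f :=
  frChk_sound t8B_eq dtB_eq c495_eq c506_eq c330_eq rfl gB_62
theorem fkB_63 : ∀ f ∈ bB_63, FrOK repB f :=
  frChk_sound t8B_eq dtB_eq c495_eq c506_eq c330_eq rfl gB_63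
theorem fkB_64 : ∀ f ∈ bB_64, FrOK repB f :=
  frChk_sound t8B_eq dtB_eq c495_eq c506_eq c330_eq rfl gB_64
theorem fkB_65 : ∀ f ∈ bB_65, FrOK repB f :=
  frChk_sound t8B_eq dtB_eq c495_eq c506_eq c330_eq rfl gB_65
theorem fkB_66 : ∀ f ∈ bB_66, FrOK repB f :=
  frChk_sound t8B_eq dtB_eq c495_eq c506_eq c330_eq rfl gB_66
theorem fkB_67 : ∀ f ∈ bB_67, FrOK repB f :=
  frChk_sound t8B_eq dtB_eq c495_eq c506_eq c330_eq rfl gB_67
theorem fkB_68 : ∀ f ∈ bB_68, FrOK repB f :=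
  frChk_sound t8B_eq dtB_eq c495_eq c506_eq c330_eq rfl gB_68
theorem fkB_69 : ∀ f ∈ bB_69, FrOK repB f :=
  frChk_sound t8B_eq dtB_eq c495_eq c506_eq c330_eq rfl gB_69
theorem fkB_70 : ∀ f ∈ bB_70, FrOK repB f :=
  frChk_sound t8B_eq dtB_eq c495_eq c506_eq c330_eq rfl gB_70
theorem fkB_71 : ∀ f ∈ bB_71, FrOK repB f :=
  frChk_sound t8B_eq dtB_eq c495_eq c506_eq c330_eq rfl gB_71
theorem fkB_72 : ∀ f ∈ bB_72, FrOK repB f :=
  frChk_sound t8B_eq dtB_eq c495_eq c506_eq c330_eq rfl gB_72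
theorem fkB_73 : ∀ f ∈ bB_73, FrOK repB f :=
  frChk_sound t8B_eq dtB_eq c495_eq c506_eq c330_eq rfl gB_73
theorem fkB_74 : ∀ f ∈ bB_74, FrOK repB f :=
  frChk_sound t8B_eq dtB_eq c495_eq c506_eq c330_eq rfl gB_74
theorem fkB_75 : ∀ f ∈ bB_75, FrOK repB f :=
  frChk_sound t8B_eq dtB_eq c495_eq c506_eq c330_eq rfl gB_75
theorem fkB_76 : ∀ f ∈ bB_76, FrOK repB f :=
  frChk_sound t8B_eq dtB_eq c495_eq c506_eq c330_eq rfl gB_76
theorem fkB_77 : ∀ f ∈ bB_77, FrOK repB f :=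
  frChk_sound t8B_eq dtB_eq c495_eq c506_eq c330_eq rfl gB_77
theorem fkB_78 : ∀ f ∈ bB_78, FrOK repB f :=
  frChk_sound t8B_eq dtB_eq c495_eq c506_eq c330_eq rfl gB_78
theorem fkB_79 : ∀ f ∈ bB_79, FrOK repB f :=
  frChk_sound t8B_eq dtB_eq c495_eq c506_eq c330_eq rfl gB_79
theorem fkB_80 : ∀ f ∈ bB_80, FrOK repB f :=
  frChk_sound t8B_eq dtB_eq c495_eq c506_eq c330_eq rfl gB_80
theorem fkB_81 : ∀ f ∈ bB_81, FrOK repB f :=
  frChk_sound t8B_eq dtB_eq c495_eq c506_eq c330_eq rfl gB_81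
theorem fkB_82 : ∀ f ∈ bB_82, FrOK repB f :=
  frChk_sound t8B_eq dtB_eq c495_eq c506_eq c330_eq rfl gB_82
theorem fkB_83 : ∀ f ∈ bB_83, FrOK repB f :=
  frChk_sound t8B_eq dtB_eq c495_eq c506_eq c330_eq rfl gB_83
theorem fkB_84 : ∀ f ∈ bB_84, FrOK repB f :=
  frChk_sound t8B_eq dtB_eq c495_eq c506_eq c330_eq rfl gB_84
theorem fkB_85 : ∀ f ∈ bB_85, FrOK repB f :=
  frChk_sound t8B_eq dtB_eq c495_eq c506_eq c330_eq rfl gB_85
theorem fkB_86 : ∀ f ∈ bB_86, FrOK repB f :=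
  frChk_sound t8B_eq dtB_eq c495_eq c506_eq c330_eq rfl gB_86
theorem fkB_87 : ∀ f ∈ bB_87, FrOK repB f :=
  frChk_sound t8B_eq dtB_eq c495_eq c506_eq c330_eq rfl gB_87
theorem fkB_88 : ∀ f ∈ bB_88, FrOK repB f :=
  frChk_sound t8B_eq dtB_eq c495_eq c506_eq c330_eq rfl gB_88
theorem fkB_89 : ∀ f ∈ bB_89, FrOK repB f :=
  frChk_sound t8B_eq dtB_eq c495_eq c506_eq c330_eq rfl gB_89
theorem fkB_90 : ∀ f ∈ bB_90, FrOK repB f :=
  frChk_sound t8B_eq dtB_eq c495_eq c506_eq c330_eq rfl gB_90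
theorem fkB_91 : ∀ f ∈ bB_91, FrOK repB f :=
  frChk_sound t8B_eq dtB_eq c495_eq c506_eq c330_eq rfl gB_91
theorem fkB_92 : ∀ f ∈ bB_92, FrOK repB f :=
  frChk_sound t8B_eq dtB_eq c495_eq c506_eq c330_eq rfl gB_92
theorem fkB_93 : ∀ f ∈ bB_93, FrOK repB f :=
  frChk_sound t8B_eq dtB_eq c495_eq c506_eq c330_eq rfl gB_93
theorem fkB_94 : ∀ f ∈ bB_94, FrOK repB f :=
  frChk_sound t8B_eq dtB_eq c495_eq c506_eq c330_eq rfl gB_94
theorem fkB_95 : ∀ f ∈ bB_95, FrOK repB f :=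
  frChk_sound t8B_eq dtB_eq c495_eq c506_eq c330_eq rfl gB_95
theorem fkB_96 : ∀ f ∈ bB_96, FrOK repB f :=
  frChk_sound t8B_eq dtB_eq c495_eq c506_eq c330_eq rfl gB_96
theorem fkB_97 : ∀ f ∈ bB_97, FrOK repB f :=
  frChk_sound t8B_eq dtB_eq c495_eq c506_eq c330_eq rfl gB_97
theorem fkB_98 : ∀ f ∈ bB_98, FrOK repB f :=
  frChk_sound t8B_eq dtB_eq c495_eq c506_eq c330_eq rfl gB_98
theorem fkB_99 : ∀ f ∈ bB_99, FrOK repB f :=
  frChk_sound t8B_eq dtB_eq c495_eq c506_eq c330_eq rfl gB_99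
theorem fkB_100 : ∀ f ∈ bB_100, FrOK repB f :=
  frChk_sound t8B_eq dtB_eq c495_eq c506_eq c330_eq rfl gB_100
theorem fkB_101 : ∀ f ∈ bB_101, FrOK repB f :=
  frChk_sound t8B_eq dtB_eq c495_eq c506_eq c330_eq rfl gB_101
theorem fkB_102 : ∀ f ∈ bB_102, FrOK repB f :=
  frChk_sound t8B_eq dtB_eq c495_eq c506_eq c330_eq rfl gB_102
theorem fkB_103 : ∀ f ∈ bB_103, FrOK repB f :=
  frChk_sound t8B_eq dtB_eq c495_eq c506_eq c330_eq rfl gB_103
theorem fkB_104 : ∀ f ∈ bB_104, FrOK repB f :=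
  frChk_sound t8B_eq dtB_eq c495_eq c506_eq c330_eq rfl gB_104

theorem fkB : ∀ l ∈ BB, ∀ f ∈ l, FrOK repB f :=
  List.forall_mem_cons.2 ⟨fkB_0,
  List.forall_mem_cons.2 ⟨fkB_1,
  List.forall_mem_cons.2 ⟨fkB_2,
  List.forall_mem_cons.2 ⟨fkB_3,
  List.forall_mem_cons.2 ⟨fkB_4,
  List.forall_mem_cons.2 ⟨fkB_5,
  List.forall_mem_cons.2 ⟨fkB_6,
  List.forall_mem_cons.2 ⟨fkB_7,
  List.forall_mem_cons.2 ⟨fkB_8,
  List.forall_mem_cons.2 ⟨fkB_9,
  List.forall_mem_cons.2 ⟨fkB_10,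
  List.forall_mem_cons.2 ⟨fkB_11,
  List.forall_mem_cons.2 ⟨fkB_12,
  List.forall_mem_cons.2 ⟨fkB_13,
  List.forall_mem_cons.2 ⟨fkB_14,
  List.forall_mem_cons.2 ⟨fkB_15,
  List.forall_mem_cons.2 ⟨fkB_16,
  List.forall_mem_cons.2 ⟨fkB_17,
  List.forall_mem_cons.2 ⟨fkB_18,
  List.forall_mem_cons.2 ⟨fkB_19,
  List.forall_mem_cons.2 ⟨fkB_20,
  List.forall_mem_cons.2 ⟨fkB_21,
  List.forall_mem_cons.2 ⟨fkB_22,
  List.forall_mem_cons.2 ⟨fkB_23,
  List.forall_mem_cons.2 ⟨fkB_24,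
  List.forall_mem_cons.2 ⟨fkB_25,
  List.forall_mem_cons.2 ⟨fkB_26,
  List.forall_mem_cons.2 ⟨fkB_27,
  List.forall_mem_cons.2 ⟨fkB_28,
  List.forall_mem_cons.2 ⟨fkB_29,
  List.forall_mem_cons.2 ⟨fkB_30,
  List.forall_mem_cons.2 ⟨fkB_31,
  List.forall_mem_cons.2 ⟨fkB_32,
  List.forall_mem_cons.2 ⟨fkB_33,
  List.forall_mem_cons.2 ⟨fkB_34,
  List.forall_mem_cons.2 ⟨fkB_35,
  List.forall_mem_cons.2 ⟨fkB_36,
  List.forall_mem_cons.2 ⟨fkB_37,
  List.forall_mem_cons.2 ⟨fkB_38,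
  List.forall_mem_cons.2 ⟨fkB_39,
  List.forall_mem_cons.2 ⟨fkB_40,
  List.forall_mem_cons.2 ⟨fkB_41,
  List.forall_mem_cons.2 ⟨fkB_42,
  List.forall_mem_cons.2 ⟨fkB_43,
  List.forall_mem_cons.2 ⟨fkB_44,
  List.forall_mem_cons.2 ⟨fkB_45,
  List.forall_mem_cons.2 ⟨fkB_46,
  List.forall_mem_cons.2 ⟨fkB_47,
  List.forall_mem_cons.2 ⟨fkB_48,
  List.forall_mem_cons.2 ⟨fkB_49,
  List.forall_mem_cons.2 ⟨fkB_50,
  List.forall_mem_cons.2 ⟨fkB_51,
  List.forall_mem_cons.2 ⟨fkB_52,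
  List.forall_mem_cons.2 ⟨fkB_53,
  List.forall_mem_cons.2 ⟨fkB_54,
  List.forall_mem_cons.2 ⟨fkB_55,
  List.forall_mem_cons.2 ⟨fkB_56,
  List.forall_mem_cons.2 ⟨fkB_57,
  List.forall_mem_cons.2 ⟨fkB_58,
  List.forall_mem_cons.2 ⟨fkB_59,
  List.forall_mem_cons.2 ⟨fkB_60,
  List.forall_mem_cons.2 ⟨fkB_61,
  List.forall_mem_cons.2 ⟨fkB_62,
  List.forall_mem_cons.2 ⟨fkB_63,
  List.forall_mem_cons.2 ⟨fkB_64,
  List.forall_mem_cons.2 ⟨fkB_65,
  List.forall_mem_cons.2 ⟨fkB_66,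
  List.forall_mem_cons.2 ⟨fkB_67,
  List.forall_mem_cons.2 ⟨fkB_68,
  List.forall_mem_cons.2 ⟨fkB_69,
  List.forall_mem_cons.2 ⟨fkB_70,
  List.forall_mem_cons.2 ⟨fkB_71,
  List.forall_mem_cons.2 ⟨fkB_72,
  List.forall_mem_cons.2 ⟨fkB_73,
  List.forall_mem_cons.2 ⟨fkB_74,
  List.forall_mem_cons.2 ⟨fkB_75,
  List.forall_mem_cons.2 ⟨fkB_76,
  List.forall_mem_cons.2 ⟨fkB_77,
  List.forall_mem_cons.2 ⟨fkB_78,
  List.forall_mem_cons.2 ⟨fkB_79,
  List.forall_mem_cons.2 ⟨fkB_80,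
  List.forall_mem_cons.2 ⟨fkB_81,
  List.forall_mem_cons.2 ⟨fkB_82,
  List.forall_mem_cons.2 ⟨fkB_83,
  List.forall_mem_cons.2 ⟨fkB_84,
  List.forall_mem_cons.2 ⟨fkB_85,
  List.forall_mem_cons.2 ⟨fkB_86,
  List.forall_mem_cons.2 ⟨fkB_87,
  List.forall_mem_cons.2 ⟨fkB_88,
  List.forall_mem_cons.2 ⟨fkB_89,
  List.forall_mem_cons.2 ⟨fkB_90,
  List.forall_mem_cons.2 ⟨fkB_91,
  List.forall_mem_cons.2 ⟨fkB_92,
  List.forall_mem_cons.2 ⟨fkB_93,
  List.forall_mem_cons.2 ⟨fkB_94,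
  List.forall_mem_cons.2 ⟨fkB_95,
  List.forall_mem_cons.2 ⟨fkB_96,
  List.forall_mem_cons.2 ⟨fkB_97,
  List.forall_mem_cons.2 ⟨fkB_98,
  List.forall_mem_cons.2 ⟨fkB_99,
  List.forall_mem_cons.2 ⟨fkB_100,
  List.forall_mem_cons.2 ⟨fkB_101,
  List.forall_mem_cons.2 ⟨fkB_102,
  List.forall_mem_cons.2 ⟨fkB_103,
  List.forall_mem_cons.2 ⟨fkB_104,
  List.forall_mem_nil _⟩⟩⟩⟩⟩⟩⟩⟩⟩⟩⟩⟩⟩⟩⟩⟩⟩⟩⟩⟩⟩⟩⟩⟩⟩⟩⟩⟩⟩⟩⟩⟩⟩⟩⟩⟩⟩⟩⟩⟩⟩⟩⟩⟩⟩⟩⟩⟩⟩⟩⟩⟩⟩⟩⟩⟩⟩⟩⟩⟩⟩⟩⟩⟩⟩⟩⟩⟩⟩⟩⟩⟩⟩⟩⟩⟩⟩⟩⟩⟩⟩⟩⟩⟩⟩⟩⟩⟩⟩⟩⟩⟩⟩⟩⟩⟩⟩⟩⟩⟩⟩⟩⟩⟩⟩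

end Pool.Agent.Gen.TY.T
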